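import Pool.Agent.Lib.MP_7c147c_pr.Tour

/-! The greedy walk: a potential built from cells of a smoothed hitting time distance. -/

namespace Pool.Agent.Lib.MP_7c147c_pr

open Finset

variable {V : Type} [Fintype V] [DecidableEq V] {G : SimpleGraph V} [DecidableRel G.Adj]

theorem minp2 {ρ : ℝ} (hρ : ∀ (f : V → ℝ) x y, (f x - f y) ^ 2 ≤ ρ * energy G f) {S : Finset V}
    (hS : S.Nonempty) {u : V → ℝ} (h1 : ∀ x ∈ S, 0 ≤ u x) (h2 : ∀ x ∉ S, 0 ≤ lap G u x)
    (a : V) : 0 ≤ u a := by
  set w : V → ℝ := fun x => max (-u x) 0 with hw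
  have w0 : ∀ x ∈ S, w x = 0 := fun x hx => max_eq_right (by linarith [h1 x hx])
  have k1 : 0 ≤ ∑ x, w x * lap G u x := sum_nonneg fun x _ => by
    by_cases hx : x ∈ S
    · rw [w0 x hx, zero_mul]
    · exact mul_nonneg (le_max_right _ _) (h2 x hx)
  have k2 : energy G w ≤ -∑ x, w x * lap G u x := by
    have := green G w u
    unfold energy
    rw [div_le_iff₀ (by norm_num), neg_mul, mul_comm, ← this, ← sum_neg_distrib]
    refine sum_le_sum fun x _ => ?_
    rw [← sum_neg_distrib]
    refine sum_le_sum fun y _ => ?_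
    simp only [hw]
    rcases le_total (-u x) 0 with p | p <;> rcases le_total (-u y) 0 with q | q <;>
      simp only [max_eq_left, max_eq_right, p, q] <;> nlinarith
  obtain ⟨s, hs⟩ := hS
  have h3 := hρ w a s
  rw [le_antisymm (k2.trans (by linarith)) (energy_nonneg G w), mul_zero, w0 s hs, sub_zero] at h3
  have h4 : w a = 0 := pow_eq_zero_iff two_ne_zero |>.1 (le_antisymm h3 (sq_nonneg _))
  have h5 : -u a ≤ w a := le_max_left _ _
  linarith

theorem hit_avg {ρ : ℝ} (hρ : ∀ (f : V → ℝ) x y, (f x - f y) ^ 2 ≤ ρ * energy G f)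
    {H : V → V → ℝ} (hH : ∀ a, IsHit G {a} (H a)) {A S : Finset V} (hA : A.Nonempty)
    (hAS : A ⊆ S) {h : V → ℝ} (hh : IsHit G S h) {m : ℝ} (hm : ∀ b ∈ A, m ≤ ∑ a ∈ A, H a b)
    (w : V) : A.card * h w ≤ ∑ a ∈ A, H a w - m := by
  have l1 : ∀ x ∉ A, lap G (fun x => ∑ a ∈ A, H a x - m) x = A.card * G.degree x := by
    intro x hx
    have : lap G (fun x => ∑ a ∈ A, H a x - m) x = ∑ a ∈ A, lap G (H a) x := by
      simp only [lap]
      rw [sum_comm]
      refine sum_congr rfl fun y _ => ?_
      rw [sum_sub_distrib]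
      ring
    rw [this, ← nsmul_eq_mul, ← sum_const]
    exact sum_congr rfl fun a ha => (hH a).2.1 x (by
      rw [mem_singleton]; rintro rfl; exact hx ha)
  have g0 := minp2 hρ hA (u := fun x => ∑ a ∈ A, H a x - m) (fun x hx => by
    have := hm x hx; linarith) (fun x hx => by rw [l1 x hx]; positivity)
  have g1 := minp2 hρ (hA.mono hAS) (u := fun x => (∑ a ∈ A, H a x - m) - A.card * h x)
    (fun x hx => by rw [hh.1 x hx]; simpa using g0 x) (fun x hx => by
      have e : lap G (fun x => (A.card : ℝ) * h x) x = A.card * G.degree x := by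
        rw [← hh.2.1 x hx]
        simp only [lap, mul_sum, mul_sub]
      rw [lap_sub, l1 x fun z => hx (hAS z), e, sub_self]) w
  linarith

theorem core2 {ρ : ℝ} (hρ : ∀ (f : V → ℝ) x y, (f x - f y) ^ 2 ≤ ρ * energy G f)
    (hd0 : ∀ v, 0 < G.degree v) (B : Finset V → ℝ) (hB0 : ∀ S, 0 ≤ B S)
    (hB : ∀ S S' : Finset V, S'.Nonempty → S' ⊆ S → ∀ h, IsHit G S' h → ∀ w ∈ S,
      h w + B S' ≤ B S) (v0 : V) :
    greedyCover G v0 ≤ ENNReal.ofReal (G.edgeFinset.card + B univ) := by
  choose! h hh using exists_hit G hρ hd0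
  refine (core hd0 (fun v U => h (unf G U) v + B (unf G U)) (fun v U hU => ?_)
    (fun v U w hw hU => ?_) (fun v U hU hf => ?_) v0).trans (ENNReal.ofReal_le_ofReal ?_)
  · exact add_nonneg ((hh _ (unf_nonempty hU)).2.2 v) (hB0 _)
  · have h1 := hB _ _ (unf_nonempty hU) (unf_anti s(v, w) U) _ (hh _ (unf_nonempty hU)) w
      (unf_of_fresh hw)
    have h2 := (hh _ ⟨w, unf_of_fresh hw⟩).2.2 v
    linarith
  · have hl := (hh _ (unf_nonempty hU)).2.1 v fun z => hf (mem_unf.1 z)
    rw [← hl]
    simp [lap]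
  · simp only [unf_empty hd0]
    rw [(hh univ ⟨v0, mem_univ v0⟩).1 v0 (mem_univ v0), zero_add]

theorem harm_eq (k : ℕ) : (harmonic k : ℝ) = ∑ i ∈ range k, 1 / ((i : ℝ) + 1) := by
  simp [harmonic]

theorem harm_mono {k m : ℕ} (h : k ≤ m) : (harmonic k : ℝ) ≤ harmonic m := by
  rw [harm_eq, harm_eq]
  exact sum_le_sum_of_subset_of_nonneg (range_subset_range.2 h) fun i _ _ => by positivity

theorem harm_gain {k m j : ℕ} (h : k + 1 ≤ m) (hj : k ≤ j) :
    1 / ((j : ℝ) + 1) ≤ (harmonic m : ℝ) - harmonic k := by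
  have h1 := harm_mono h
  rw [harm_eq (k + 1), sum_range_succ, ← harm_eq] at h1
  have h2 : 1 / ((j : ℝ) + 1) ≤ 1 / ((k : ℝ) + 1) :=
    one_div_le_one_div_of_le (by positivity) (by exact_mod_cast Nat.succ_le_succ hj)
  linarith

theorem growth (hc : G.Connected) {H : V → V → ℝ} (H0 : ∀ a, H a a = 0)
    (hs : ∀ a b, H a b = H b a) (tri : ∀ a b c, H a c ≤ H a b + H b c) {σ l : ℝ} (hσ : 0 < σ)
    (hl0 : 0 ≤ l) (hl : ∀ x y, G.Adj x y → H x y ≤ l) {b : ℕ}
    (hb : ∀ x, b ≤ (univ.filter fun y => H x y ≤ σ).card) (w y : V) (r : ℕ)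
    (hr : r * (2 * σ + l) ≤ H w y) :
    b * r ≤ (univ.filter fun x => H w x < r * (2 * σ + l)).card := by
  induction r with
  | zero => simp
  | succ r ih =>
    push_cast at hr ⊢
    have r0 : (0 : ℝ) ≤ r * (2 * σ + l) := by positivity
    have h1 := ih (by linarith)
    obtain ⟨q⟩ := hc.preconnected w y
    obtain ⟨d, -, d1, d2⟩ := q.exists_boundary_dart {x | H w x < r * (2 * σ + l) + σ}
      (by simp only [Set.mem_setOf_eq, H0]; linarith)
      (by simp only [Set.mem_setOf_eq, not_lt]; linarith)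
    simp only [Set.mem_setOf_eq, not_lt] at d1 d2
    have d3 := hl _ _ d.adj
    have d4 := tri w d.fst d.snd
    have dj : Disjoint (univ.filter fun x => H w x < r * (2 * σ + l))
        (univ.filter fun y => H d.snd y ≤ σ) := by
      rw [disjoint_filter]
      intro x _ h2 h3
      have := tri w x d.snd
      rw [hs x] at this
      linarith
    have sb : (univ.filter fun x => H w x < r * (2 * σ + l)) ∪
        (univ.filter fun y => H d.snd y ≤ σ) ⊆
          univ.filter fun x => H w x < (r + 1) * (2 * σ + l) := by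
      intro x hx
      rw [mem_filter]
      refine ⟨mem_univ _, ?_⟩
      rcases mem_union.1 hx with e | e
      · have := (mem_filter.1 e).2
        linarith
      · have := (mem_filter.1 e).2
        have := tri w d.snd x
        linarith
    have h2 := card_le_card sb
    rw [card_union_of_disjoint dj] at h2
    have h3 := hb d.snd
    rw [mul_add, mul_one]
    omega

/-- the potential counting points of `S` in small balls -/
noncomputable def potF (e : V → V → ℝ) (θ : ℝ) (S : Finset V) : ℝ :=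
  ∑ x, (harmonic (S.filter fun y => e x y ≤ θ).card : ℝ)

open Classical in
/-- a neighbourhood of `S` -/
noncomputable def nbh (H : V → V → ℝ) (L : ℝ) (S : Finset V) (r : ℕ) : Finset V :=
  univ.filter fun x => ∃ s ∈ S, H s x < (r + 1) * L

/-- the potential measuring neighbourhoods of `S` -/
noncomputable def potT (H : V → V → ℝ) (L : ℝ) (S : Finset V) : ℝ :=
  ∑ r ∈ range (Fintype.card V), ((nbh H L S r).card : ℝ) / (r + 1)

theorem potF_one {e : V → V → ℝ} {θ : ℝ} {S S' : Finset V} (h : S' ⊆ S) (x : V) :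
    (harmonic (S'.filter fun y => e x y ≤ θ).card : ℝ) ≤
      harmonic (S.filter fun y => e x y ≤ θ).card :=
  harm_mono (card_le_card (filter_subset_filter _ h))

theorem potF_drop {e : V → V → ℝ} {θ : ℝ} (es : ∀ x y, e x y = e y x)
    (et : ∀ x y z, e x z ≤ 2 * e x y + 2 * e y z) {b : ℕ}
    (hb : ∀ x, b ≤ (univ.filter fun y => e x y ≤ θ).card) {S S' : Finset V} (hsub : S' ⊆ S)
    {w : V} (hw : w ∈ S) (hw' : w ∉ S') :
    b * (1 / (((S'.filter fun a => e w a ≤ 4 * θ).card : ℝ) + 1)) ≤ potF e θ S - potF e θ S' := by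
  set A := S'.filter fun a => e w a ≤ 4 * θ with hA
  have g1 : ∑ x ∈ univ.filter (fun y => e w y ≤ θ), 1 / ((A.card : ℝ) + 1) ≤
      ∑ x ∈ univ.filter (fun y => e w y ≤ θ),
        ((harmonic (S.filter fun y => e x y ≤ θ).card : ℝ) -
          harmonic (S'.filter fun y => e x y ≤ θ).card) := sum_le_sum fun x hx => by
    have hx' := (mem_filter.1 hx).2
    have k : w ∈ S.filter fun y => e x y ≤ θ := mem_filter.2 ⟨hw, by rwa [es]⟩
    refine harm_gain (card_lt_card ((ssubset_iff_of_subset (filter_subset_filter _ hsub)).2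
      ⟨w, k, fun z => hw' (mem_filter.1 z).1⟩)) (card_le_card fun a ha => ?_)
    obtain ⟨a1, a2⟩ := mem_filter.1 ha
    have := et w x a
    exact mem_filter.2 ⟨a1, by linarith⟩
  have g2 := sum_le_sum_of_subset_of_nonneg (f := fun x =>
    (harmonic (S.filter fun y => e x y ≤ θ).card : ℝ) -
      harmonic (S'.filter fun y => e x y ≤ θ).card)
    (subset_univ (univ.filter fun y => e w y ≤ θ)) fun x _ _ => sub_nonneg.2 (potF_one hsub x)
  rw [sum_const, nsmul_eq_mul] at g1
  rw [sum_sub_distrib (s := univ)] at g2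
  have g3 : (b : ℝ) ≤ (univ.filter fun y => e w y ≤ θ).card := by exact_mod_cast hb w
  exact (mul_le_mul_of_nonneg_right g3 (by positivity)).trans (g1.trans g2)

theorem nbh_mono {H : V → V → ℝ} {L : ℝ} {S S' : Finset V} (h : S' ⊆ S) (r : ℕ) :
    nbh H L S' r ⊆ nbh H L S r := fun x hx => by
  simp only [nbh, mem_filter, mem_univ, true_and] at hx ⊢
  obtain ⟨s, h1, h2⟩ := hx
  exact ⟨s, h h1, h2⟩

theorem potT_one {H : V → V → ℝ} {L : ℝ} {S S' : Finset V} (h : S' ⊆ S) (r : ℕ) :
    ((nbh H L S' r).card : ℝ) / (r + 1) ≤ (nbh H L S r).card / (r + 1) :=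
  div_le_div_of_nonneg_right (by exact_mod_cast card_le_card (nbh_mono h r)) (by positivity)

theorem potT_drop {H : V → V → ℝ} {L : ℝ} (L0 : 0 < L) (hs : ∀ a b, H a b = H b a)
    (tri : ∀ a b c, H a c ≤ H a b + H b c) {b : ℕ} (hb0 : 0 < b)
    (gr : ∀ w y (r : ℕ), r * L ≤ H w y → b * r ≤ (univ.filter fun x => H w x < r * L).card)
    {S S' : Finset V} (hsub : S' ⊆ S) {w s : V} (hw : w ∈ S) (s2 : ∀ s' ∈ S', H s w ≤ H s' w)
    {q : ℕ} (q2 : q * (2 * L) ≤ H s w) : (q : ℝ) * b ≤ potT H L S - potT H L S' := by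
  have q3 : q ≤ Fintype.card V := by
    have h0 : (0 : ℝ) ≤ q * L := by positivity
    have h1 := gr w s q (by rw [hs]; linarith)
    have h2 := card_le_univ (univ.filter fun x => H w x < q * L)
    exact (Nat.le_mul_of_pos_left q hb0).trans (h1.trans h2)
  have t2 : ∀ r ∈ range q, (b : ℝ) ≤
      (nbh H L S r).card / (r + 1) - (nbh H L S' r).card / (r + 1) := fun r hr => by
    have r1 : (r : ℝ) + 1 ≤ q := by exact_mod_cast mem_range.1 hr
    have r2 : ((r : ℝ) + 1) * (2 * L) ≤ H s w :=
      (mul_le_mul_of_nonneg_right r1 (by positivity)).trans q2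
    have r3 : 0 ≤ ((r : ℝ) + 1) * L := by positivity
    have h1 := gr w s (r + 1) (by rw [hs]; push_cast; linarith)
    push_cast at h1
    have dj : Disjoint (nbh H L S' r) (univ.filter fun x => H w x < (r + 1) * L) := by
      rw [disjoint_left]
      intro x h0 h4
      simp only [nbh, mem_filter, mem_univ, true_and] at h0 h4
      obtain ⟨s', h2, h3⟩ := h0
      have := s2 s' h2
      have := tri s' x w
      rw [hs x] at this
      linarith
    have sb : nbh H L S' r ∪ (univ.filter fun x => H w x < (r + 1) * L) ⊆ nbh H L S r :=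
      union_subset (nbh_mono hsub r) fun x hx => by
        simp only [nbh, mem_filter, mem_univ, true_and] at hx ⊢
        exact ⟨w, hw, hx⟩
    have h2 := card_le_card sb
    rw [card_union_of_disjoint dj] at h2
    have h3 : ((nbh H L S' r).card : ℝ) + b * (r + 1) ≤ (nbh H L S r).card := by
      exact_mod_cast (Nat.add_le_add_left h1 _).trans h2
    rw [← sub_div, le_div_iff₀ (by positivity)]
    linarith
  have t3 := sum_le_sum t2
  have t4 := sum_le_sum_of_subset_of_nonneg (f := fun r : ℕ =>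
    ((nbh H L S r).card : ℝ) / (r + 1) - (nbh H L S' r).card / (r + 1)) (range_subset_range.2 q3)
    fun r _ _ => sub_nonneg.2 (potT_one hsub r)
  rw [sum_const, card_range, nsmul_eq_mul] at t3
  rw [sum_sub_distrib (s := range (Fintype.card V))] at t4
  exact t3.trans t4

theorem cells (hc : G.Connected) (hd0 : ∀ v, 0 < G.degree v) {H : V → V → ℝ}
    (hH : ∀ a, IsHit G {a} (H a)) (hs : ∀ a b, H a b = H b a) {e K : V → V → ℝ} {c θ κ l : ℝ}
    {b : ℕ} (hb0 : 0 < b) (θ0 : 0 ≤ θ) (κ0 : 0 < κ) (l0 : 0 ≤ l) (e0 : ∀ x y, 0 ≤ e x y)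
    (es : ∀ x y, e x y = e y x) (et : ∀ x y z, e x z ≤ 2 * e x y + 2 * e y z)
    (hK : ∀ x y, H x y = e x y + c - K x y) (K0 : ∀ x y, 0 ≤ K x y)
    (Ks : ∀ y, ∑ x, K x y ≤ κ) (hb : ∀ x, b ≤ (univ.filter fun y => e x y ≤ θ).card)
    (hl : ∀ x y, G.Adj x y → H x y ≤ l) (v0 : V) :
    greedyCover G v0 ≤ ENNReal.ofReal (G.edgeFinset.card + Fintype.card V *
      (4 * θ + 4 * (2 * (κ + θ) + l) / b * harmonic (Fintype.card V))) := by
  obtain ⟨ρ, hρ⟩ := exists_rho hc
  have H0 : ∀ a, H a a = 0 := fun a => (hH a).1 a (mem_singleton_self a)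
  have tri : ∀ a b c, H a c ≤ H a b + H b c := fun a b c => by
    have := hit_tri hρ (hH b) (hH a) c
    linarith
  have cκ : c ≤ κ := by
    have h1 := hK v0 v0
    have h2 := single_le_sum (f := fun x => K x v0) (fun x _ => K0 x v0) (mem_univ v0)
    have := Ks v0
    have := e0 v0 v0
    have := H0 v0
    linarith
  obtain ⟨L, hL⟩ : ∃ L : ℝ, L = 2 * (κ + θ) + l := ⟨_, rfl⟩
  have L0 : 0 < L := by rw [hL]; positivity
  have b0 : (0 : ℝ) < b := by exact_mod_cast hb0
  have gr : ∀ w y (r : ℕ), r * L ≤ H w y → b * r ≤ (univ.filter fun x => H w x < r * L).card := by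
    rw [hL]
    exact growth hc H0 hs tri (σ := κ + θ) (by positivity) l0 hl fun x => (hb x).trans
      (card_le_card fun y hy => mem_filter.2 ⟨mem_univ _, by
        have := (mem_filter.1 hy).2
        have := hK x y
        have := K0 x y
        linarith⟩)
  rw [← hL]
  have q0 : 0 ≤ 2 * L / b := by positivity
  refine (core2 hρ hd0 (fun S => 4 * θ * S.card + 2 * L / b * (potF e θ S + potT H L S))
    (fun S => ?_) (fun S S' hS' hsub h hh w hw => ?_) v0).trans (ENNReal.ofReal_le_ofReal ?_)
  · have h1 : 0 ≤ potF e θ S := sum_nonneg fun x _ => by rw [harm_eq]; positivity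
    have h2 : 0 ≤ potT H L S := sum_nonneg fun r _ => by positivity
    exact add_nonneg (by positivity) (mul_nonneg q0 (add_nonneg h1 h2))
  · have f1 : potF e θ S' ≤ potF e θ S := sum_le_sum fun x _ => potF_one hsub x
    have t1 : potT H L S' ≤ potT H L S := sum_le_sum fun r _ => potT_one hsub r
    by_cases hw' : w ∈ S'
    · have c1 : (S'.card : ℝ) ≤ S.card := by exact_mod_cast card_le_card hsub
      have := mul_le_mul_of_nonneg_left (add_le_add f1 t1) q0
      have := mul_le_mul_of_nonneg_left c1 θ0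
      rw [hh.1 w hw']
      linarith
    have c1 : (S'.card : ℝ) + 1 ≤ S.card := by
      exact_mod_cast card_lt_card ((ssubset_iff_of_subset hsub).2 ⟨w, hw, hw'⟩)
    have c2 := mul_le_mul_of_nonneg_left c1 θ0
    have f2 := potF_drop es et hb hsub hw hw'
    set A := S'.filter fun a => e w a ≤ 4 * θ with hA
    have f3 : 2 * L * (1 / ((A.card : ℝ) + 1)) ≤ 2 * L / b * (potF e θ S - potF e θ S') := by
      refine le_trans (le_of_eq ?_) (mul_le_mul_of_nonneg_left f2 q0)
      field_simp
    rcases A.eq_empty_or_nonempty with z | z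
    · obtain ⟨s, s1, s2⟩ := exists_min_image S' (fun s => H s w) hS'
      have g1 := hit_avg hρ hH (singleton_nonempty s) (singleton_subset_iff.2 s1) hh (m := 0)
        (fun b hb => by rw [mem_singleton.1 hb, sum_singleton, H0]) w
      simp only [card_singleton, Nat.cast_one, one_mul, sum_singleton, sub_zero] at g1
      have q1 : H s w < (⌊H s w / (2 * L)⌋₊ + 1) * (2 * L) := by
        rw [← div_lt_iff₀ (by positivity)]
        exact Nat.lt_floor_add_one _
      have q2 : ⌊H s w / (2 * L)⌋₊ * (2 * L) ≤ H s w := by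
        rw [← le_div_iff₀ (by positivity)]
        exact Nat.floor_le (div_nonneg ((hH s).2.2 w) (by positivity))
      have t5 : ⌊H s w / (2 * L)⌋₊ * (2 * L) ≤ 2 * L / b * (potT H L S - potT H L S') := by
        refine le_trans (le_of_eq ?_)
          (mul_le_mul_of_nonneg_left (potT_drop L0 hs tri hb0 gr hsub hw s2 q2) q0)
        field_simp
      rw [z, card_empty, Nat.cast_zero, zero_add, div_one, mul_one] at f3
      linarith
    · have j1 : (1 : ℝ) ≤ A.card := by exact_mod_cast z.card_pos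
      have g1 := hit_avg hρ hH z (filter_subset _ _) hh (m := A.card * c - κ) (fun y _ => by
        have h1 := sum_le_sum_of_subset_of_nonneg (f := fun x => K x y) (subset_univ A)
          fun x _ _ => K0 x y
        have h2 : ∑ a ∈ A, (c - K a y) ≤ ∑ a ∈ A, H a y := sum_le_sum fun a _ => by
          have := hK a y
          have := e0 a y
          linarith
        rw [sum_sub_distrib, sum_const, nsmul_eq_mul] at h2
        have := Ks y
        linarith) w
      have g2 : ∑ a ∈ A, H a w ≤ A.card * (4 * θ + c) := by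
        rw [← nsmul_eq_mul]
        refine sum_le_card_nsmul _ _ _ fun a ha => ?_
        have := (mem_filter.1 ha).2
        have := hK a w
        have := K0 a w
        have := es a w
        linarith
      have g3 : h w - 4 * θ ≤ 2 * L * (1 / ((A.card : ℝ) + 1)) := by
        rw [mul_one_div, le_div_iff₀ (by positivity)]
        have g4 : A.card * (h w - 4 * θ) ≤ κ := by linarith
        have g5 : κ ≤ L := by rw [hL]; linarith
        generalize h w - 4 * θ = x at g4 ⊢
        generalize (A.card : ℝ) = j at g4 j1 ⊢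
        rcases le_total x 0 with p | p <;> nlinarith
      have := mul_le_mul_of_nonneg_left t1 q0
      linarith
  · have f1 : potF e θ univ ≤ Fintype.card V * harmonic (Fintype.card V) := by
      rw [← nsmul_eq_mul, ← card_univ]
      exact sum_le_card_nsmul _ _ _ fun x _ => harm_mono (card_le_card (filter_subset _ _))
    have t1 : potT H L univ ≤ Fintype.card V * harmonic (Fintype.card V) := by
      rw [harm_eq, mul_sum]
      refine sum_le_sum fun r _ => ?_
      rw [mul_one_div]
      exact div_le_div_of_nonneg_right (by exact_mod_cast card_le_univ _) (by positivity)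
    have := mul_le_mul_of_nonneg_left (add_le_add f1 t1) q0
    have e1 : 4 * L / b = 2 * (2 * L / b) := by ring
    rw [card_univ, e1]
    linarith

end Pool.Agent.Lib.MP_7c147c_pr
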