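import Pool.Agent.Lib.MP_7c147c_pr.FK

/-! Sufficient conditions for the Faber-Krahn inequality; the hypercube. -/

set_option linter.unusedSectionVars false

namespace Pool.Agent.Lib.MP_7c147c_pr

open Finset Function

section gen
variable {V : Type} [Fintype V] [DecidableEq V] {G : SimpleGraph V} [DecidableRel G.Adj]

theorem fk_of_ls {d : ℕ} {σ : ℝ} (hσ0 : 0 ≤ σ)
    (h : ∀ f : V → ℝ, d * (∑ v, f v ^ 2 * Real.log (f v ^ 2) -
      (∑ v, f v ^ 2) * Real.log ((∑ v, f v ^ 2) / Fintype.card V)) ≤ σ * energy G f) :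
    FK G d σ := by
  intro A f hf
  set N := ∑ v, f v ^ 2 with hN
  have N0 : 0 ≤ N := sum_nonneg fun v _ => sq_nonneg _
  rcases N0.eq_or_lt with z | z
  · rw [← z]; simpa using mul_nonneg hσ0 (energy_nonneg G f)
  have hA : ∀ g : ℝ → ℝ, g 0 = 0 → ∑ v, g (f v) = ∑ v ∈ A, g (f v) := fun g hg =>
    (sum_subset (subset_univ A) fun v _ hv => by rw [hf v hv, hg]).symm
  have hNA : N = ∑ v ∈ A, f v ^ 2 := hA (fun x => x ^ 2) (by simp)
  have a0 : (0 : ℝ) < A.card := by
    rcases A.eq_empty_or_nonempty with e | e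
    · rw [e, sum_empty] at hNA; linarith
    · exact_mod_cast e.card_pos
  have n0 : (0 : ℝ) < Fintype.card V := a0.trans_le (by exact_mod_cast card_le_univ A)
  have t0 : 0 < N / A.card := by positivity
  have h1 : ∑ v ∈ A, (f v ^ 2 * Real.log (N / A.card) + f v ^ 2 - N / A.card) ≤
      ∑ v ∈ A, f v ^ 2 * Real.log (f v ^ 2) := sum_le_sum fun v _ => by
    rcases (sq_nonneg (f v)).eq_or_lt with y | y
    · rw [← y]; simpa using t0.le
    · have h2 := Real.log_le_sub_one_of_pos (div_pos t0 y)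
      rw [Real.log_div t0.ne' y.ne'] at h2
      have h3 := mul_le_mul_of_nonneg_left h2 y.le
      rw [mul_sub, mul_sub, mul_div_cancel₀ _ y.ne'] at h3
      linarith
  rw [sum_sub_distrib, sum_add_distrib, ← sum_mul, ← hNA, sum_const, nsmul_eq_mul,
    mul_div_cancel₀ _ a0.ne', ← hA (fun x => x ^ 2 * Real.log (x ^ 2)) (by simp)] at h1
  have h4 : Real.log ((Fintype.card V : ℝ) / A.card) =
      Real.log (N / A.card) - Real.log (N / Fintype.card V) := by
    rw [← Real.log_div t0.ne' (by positivity)]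
    congr 1; field_simp
  refine le_trans ?_ (h f)
  rw [h4, ← hN]
  nlinarith [mul_le_mul_of_nonneg_left h1 (Nat.cast_nonneg (α := ℝ) d)]

theorem fk_of_gap {d : ℕ} {τ : ℝ} (hτ0 : 0 ≤ τ)
    (h : ∀ f : V → ℝ, ∑ v, f v = 0 → d * ∑ v, f v ^ 2 ≤ τ * energy G f) :
    FK G d (2 * τ * (1 + Real.log (Fintype.card V))) := by
  intro A f hf
  set n : ℝ := (Fintype.card V : ℝ) with hn
  have e0 := energy_nonneg G f
  have l0 : 0 ≤ Real.log n := Real.log_natCast_nonneg _
  rcases A.eq_empty_or_nonempty with e | e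
  · simp only [e, card_empty, Nat.cast_zero, div_zero, Real.log_zero, zero_mul]; positivity
  have a1 : (1 : ℝ) ≤ A.card := by exact_mod_cast e.card_pos
  have an : (A.card : ℝ) ≤ n := by rw [hn]; exact_mod_cast card_le_univ A
  have n0 : 0 < n := by linarith
  have h1 := h (fun v => f v - (∑ v, f v) / n) (by
    rw [sum_sub_distrib, sum_const, nsmul_eq_mul, card_univ, ← hn]; field_simp; ring)
  rw [energy_sub_const] at h1
  have h2 : ∑ v, (f v - (∑ v, f v) / n) ^ 2 = ∑ v, f v ^ 2 - (∑ v, f v) ^ 2 / n := by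
    simp only [sub_sq, sum_add_distrib, sum_sub_distrib, ← sum_mul, ← mul_sum, sum_const,
      nsmul_eq_mul, card_univ, ← hn]
    field_simp; ring
  have h3 : (∑ v, f v) ^ 2 ≤ A.card * ∑ v, f v ^ 2 := by
    rw [← sum_subset (subset_univ A) fun v _ hv => hf v hv]
    exact sq_sum_le_card_mul_sum_sq.trans (mul_le_mul_of_nonneg_left
      (sum_le_sum_of_subset_of_nonneg (subset_univ A) fun v _ _ => sq_nonneg _) (by linarith))
  have N0 : 0 ≤ d * ∑ v, f v ^ 2 := by positivity
  have h4 : (1 - A.card / n) * (d * ∑ v, f v ^ 2) ≤ τ * energy G f := by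
    refine le_trans ?_ h1
    rw [h2]
    have : (∑ v, f v) ^ 2 / n ≤ A.card / n * ∑ v, f v ^ 2 := by
      rw [div_mul_eq_mul_div]; gcongr
    nlinarith [mul_le_mul_of_nonneg_left this (Nat.cast_nonneg (α := ℝ) d)]
  have p1 : (A.card : ℝ) / n ≤ 1 := (div_le_one n0).2 an
  have h5 : Real.log (n / A.card) ≤ 2 * (1 + Real.log n) * (1 - A.card / n) := by
    by_cases c : (A.card : ℝ) / n ≤ 1 / 2
    · have : Real.log (n / A.card) ≤ Real.log n :=
        Real.log_le_log (by positivity) (div_le_self n0.le a1)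
      nlinarith
    · have c1 := Real.log_le_sub_one_of_pos (x := n / A.card) (by positivity)
      have c2 : n / A.card - 1 ≤ 2 * (1 - A.card / n) := by
        have c3 : n / A.card * (A.card / n) = 1 := by field_simp
        have c4 : 0 < n / A.card := by positivity
        have c5 : n / A.card ≤ 2 := by nlinarith [not_le.1 c]
        nlinarith
      nlinarith
  calc _ ≤ 2 * (1 + Real.log n) * (1 - A.card / n) * (d * ∑ v, f v ^ 2) := by gcongr
    _ = 2 * (1 + Real.log n) * ((1 - A.card / n) * (d * ∑ v, f v ^ 2)) := by ring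
    _ ≤ 2 * (1 + Real.log n) * (τ * energy G f) := by gcongr
    _ = _ := by ring

theorem fk_only {d : ℕ} (hd0 : 0 < d) (hd : ∀ v, G.degree v = d) {σ : ℝ} (hσ0 : 0 ≤ σ)
    (hσ : FK G d σ) (v0 : V) :
    greedyCover G v0 ≤ ENNReal.ofReal (G.edgeFinset.card + 97 * Fintype.card V * σ) := by
  have l0 : 0 ≤ Real.log (Fintype.card V) := Real.log_natCast_nonneg _
  have d0 : (0 : ℝ) < d := by exact_mod_cast hd0
  refine (fk_main hd0 hd (by positivity) hσ0 (fk_res hd0 hσ0 hσ) hσ v0).trans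
    (ENNReal.ofReal_le_ofReal ?_)
  have : √(d * (32 * σ / (d * (1 + Real.log (Fintype.card V)))) * σ *
      (1 + Real.log (Fintype.card V))) ≤ 97 / 17 * σ := by
    refine Real.sqrt_le_iff.2 ⟨by positivity, ?_⟩
    have : d * (32 * σ / (d * (1 + Real.log (Fintype.card V)))) * σ *
      (1 + Real.log (Fintype.card V)) = 32 * σ ^ 2 := by field_simp
    rw [this]; nlinarith [sq_nonneg σ]
  nlinarith [mul_le_mul_of_nonneg_left this (Nat.cast_nonneg (α := ℝ) (Fintype.card V))]
end gen

/-- the hypercube -/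
def cube (d : ℕ) : SimpleGraph (Fin d → Bool) where
  Adj x y := hammingDist x y = 1
  symm := ⟨fun x y h => by rwa [hammingDist_comm]⟩
  loopless := ⟨fun x h => by simp at h⟩

instance (d : ℕ) : DecidableRel (cube d).Adj := fun x y =>
  inferInstanceAs (Decidable (hammingDist x y = 1))

theorem sum_cube {d : ℕ} (F : (Fin (d + 1) → Bool) → ℝ) :
    ∑ x, F x = ∑ y : Fin d → Bool, (F (Fin.cons true y) + F (Fin.cons false y)) := by
  rw [← (Fin.consEquiv fun _ : Fin (d + 1) => Bool).sum_comp, Fintype.sum_prod_type,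
    Fintype.sum_bool, ← sum_add_distrib]
  rfl

/-- four times the total influence -/
noncomputable def infl {d : ℕ} (f : (Fin d → Bool) → ℝ) : ℝ :=
  ∑ x, ∑ i, (f x - f (update x i (!x i))) ^ 2

theorem bonami (d : ℕ) : ∀ f : (Fin d → Bool) → ℝ, ∃ F : (Fin d → Bool) → ℝ,
    2 ^ d * ∑ x, F x ^ 4 ≤ (∑ x, f x ^ 2) ^ 2 ∧ ∀ t : ℝ,
      (1 + t) * ∑ x, f x ^ 2 - Real.log 3 / 8 * infl f ≤ Real.exp t * ∑ x, f x * F x := by
  induction d with
  | zero =>
    intro f
    refine ⟨f, by simp [← pow_mul], fun t => ?_⟩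
    simp only [infl, univ_unique, sum_singleton, univ_eq_empty, sum_empty, mul_zero, sub_zero, ← sq]
    have := Real.add_one_le_exp t
    nlinarith [sq_nonneg (f default)]
  | succ d ih =>
    intro f
    set g : (Fin d → Bool) → ℝ := fun y => (f (Fin.cons true y) + f (Fin.cons false y)) / 2 with hg
    set h : (Fin d → Bool) → ℝ := fun y => (f (Fin.cons true y) - f (Fin.cons false y)) / 2 with hh
    have f1 : ∀ y, f (Fin.cons true y) = g y + h y := fun y => by simp only [hg, hh]; ring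
    have f0 : ∀ y, f (Fin.cons false y) = g y - h y := fun y => by simp only [hg, hh]; ring
    obtain ⟨P, p1, p2⟩ := ih g
    obtain ⟨Q, q1, q2⟩ := ih h
    set r := Real.exp (-(Real.log 3 / 2)) with hr
    have r2 : r ^ 2 = 1 / 3 := by
      rw [hr, ← Real.exp_nat_mul, show ((2 : ℕ) : ℝ) * -(Real.log 3 / 2) = -Real.log 3 by
        push_cast; ring, Real.exp_neg, Real.exp_log (by norm_num)]; norm_num
    have n2 : ∑ x, f x ^ 2 = 2 * ∑ y, g y ^ 2 + 2 * ∑ y, h y ^ 2 := by
      rw [sum_cube, mul_sum, mul_sum, ← sum_add_distrib]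
      exact sum_congr rfl fun y _ => by rw [f1, f0]; ring
    refine ⟨fun x => P (Fin.tail x) + (if x 0 then r else -r) * Q (Fin.tail x), ?_, fun t => ?_⟩
    · have e : ∑ x : Fin (d + 1) → Bool,
          (P (Fin.tail x) + (if x 0 then r else -r) * Q (Fin.tail x)) ^ 4 =
          2 * ∑ y, P y ^ 4 + 4 * ∑ y, P y ^ 2 * Q y ^ 2 + 2 / 9 * ∑ y, Q y ^ 4 := by
        rw [sum_cube, mul_sum, mul_sum, mul_sum, ← sum_add_distrib, ← sum_add_distrib]
        refine sum_congr rfl fun y _ => ?_
        simp only [Fin.tail_cons, Fin.cons_zero, if_true, Bool.false_eq_true, if_false]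
        have : r ^ 4 = 1 / 9 := by rw [show r ^ 4 = (r ^ 2) ^ 2 by ring, r2]; norm_num
        linear_combination (12 * P y ^ 2 * Q y ^ 2) * r2 + (2 * Q y ^ 4) * this
      have cs := sum_mul_sq_le_sq_mul_sq univ (fun y => P y ^ 2) fun y => Q y ^ 2
      simp only [← pow_mul] at cs
      have a0 : 0 ≤ ∑ y, g y ^ 2 := by positivity
      have b0 : 0 ≤ ∑ y, h y ^ 2 := by positivity
      have c4 : 0 ≤ 2 ^ d * ∑ y, Q y ^ 4 := by positivity
      have c5 : 2 ^ d * ∑ y, P y ^ 2 * Q y ^ 2 ≤ (∑ y, g y ^ 2) * ∑ y, h y ^ 2 := by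
        refine (abs_le_of_sq_le_sq' ?_ (by positivity)).2
        calc _ = (2 ^ d) ^ 2 * (∑ y, P y ^ 2 * Q y ^ 2) ^ 2 := by ring
          _ ≤ (2 ^ d) ^ 2 * ((∑ y, P y ^ 4) * ∑ y, Q y ^ 4) := by gcongr
          _ = (2 ^ d * ∑ y, P y ^ 4) * (2 ^ d * ∑ y, Q y ^ 4) := by ring
          _ ≤ (∑ y, g y ^ 2) ^ 2 * (∑ y, h y ^ 2) ^ 2 := by gcongr
          _ = _ := by ring
      rw [e, n2, pow_succ]
      nlinarith
    · have e1 : ∑ x : Fin (d + 1) → Bool,
          f x * (P (Fin.tail x) + (if x 0 then r else -r) * Q (Fin.tail x)) =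
          2 * ∑ y, g y * P y + 2 * r * ∑ y, h y * Q y := by
        rw [sum_cube, mul_sum, mul_sum, ← sum_add_distrib]
        refine sum_congr rfl fun y _ => ?_
        simp only [Fin.tail_cons, Fin.cons_zero, if_true, Bool.false_eq_true, if_false, f1, f0]
        ring
      have e2 : infl f = 2 * infl g + 2 * infl h + 8 * ∑ y, h y ^ 2 := by
        unfold infl
        rw [sum_cube, mul_sum, mul_sum, mul_sum, ← sum_add_distrib, ← sum_add_distrib]
        refine sum_congr rfl fun y _ => ?_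
        simp only [Fin.sum_univ_succ, Fin.cons_zero, Fin.cons_succ, Fin.update_cons_zero,
          ← Fin.cons_update, Bool.not_true, Bool.not_false, f1, f0]
        rw [mul_sum, mul_sum, ← sum_add_distrib, add_add_add_comm, ← sum_add_distrib, add_comm]
        congr 1
        · exact sum_congr rfl fun i _ => by ring
        · ring
      have h1 := p2 t
      have h2 := q2 (t + -(Real.log 3 / 2))
      rw [Real.exp_add, ← hr] at h2
      rw [e1, e2, n2]
      nlinarith

theorem cube_nbr {d : ℕ} (x : Fin d → Bool) :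
    (cube d).neighborFinset x = univ.image fun i => update x i (!x i) := by
  ext y
  simp only [SimpleGraph.mem_neighborFinset, mem_image, mem_univ, true_and]
  change hammingDist x y = 1 ↔ _
  rw [hammingDist, card_eq_one]
  constructor
  · rintro ⟨i, hi⟩
    refine ⟨i, funext fun j => ?_⟩
    have hj : x j ≠ y j ↔ j = i := by simpa using congrArg (j ∈ ·) hi
    by_cases e : j = i
    · subst e
      have := hj.2 rfl
      rw [update_self]
      revert this; cases x j <;> cases y j <;> simp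
    · rw [update_of_ne e]
      exact not_not.1 fun z => e (hj.1 z)
  · rintro ⟨i, rfl⟩
    refine ⟨i, ?_⟩
    ext j
    by_cases e : j = i
    · subst e; simp
    · simp [e]

theorem flip_inj {d : ℕ} (x : Fin d → Bool) : Injective fun i => update x i (!x i) := by
  intro i j h
  by_contra e
  have := congrFun h i
  simp [update_of_ne e] at this

theorem cube_deg {d : ℕ} (x : Fin d → Bool) : (cube d).degree x = d := by
  rw [← SimpleGraph.card_neighborFinset_eq_degree, cube_nbr, card_image_of_injective _ (flip_inj x)]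
  simp

theorem cube_energy {d : ℕ} (f : (Fin d → Bool) → ℝ) : energy (cube d) f = infl f / 2 := by
  unfold energy infl
  congr 1
  exact sum_congr rfl fun x _ => by rw [cube_nbr, sum_image fun i _ j _ h => flip_inj x h]

theorem cube_fk (d : ℕ) : FK (cube d) d (d * Real.log 3) := by
  intro A f hf
  have l3 : 0 ≤ Real.log 3 := Real.log_nonneg (by norm_num)
  have e0 := energy_nonneg (cube d) f
  rcases A.eq_empty_or_nonempty with e | e
  · simp only [e, card_empty, Nat.cast_zero, div_zero, Real.log_zero, zero_mul]; positivity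
  have a0 : (0 : ℝ) < A.card := by exact_mod_cast e.card_pos
  obtain ⟨F, h1, h2⟩ := bonami d f
  have hn : (Fintype.card (Fin d → Bool) : ℝ) = 2 ^ d := by simp
  rw [hn]
  set L := Real.log ((2 : ℝ) ^ d / A.card) with hL
  set N := ∑ x, f x ^ 2 with hN
  have N0 : 0 ≤ N := by positivity
  have h3 := h2 (L / 4)
  have h4 : Real.exp (L / 4) ^ 4 = 2 ^ d / A.card := by
    rw [← Real.exp_nat_mul, show ((4 : ℕ) : ℝ) * (L / 4) = L by push_cast; ring, hL,
      Real.exp_log (by positivity)]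
  have h5 : (∑ x, f x * F x) ^ 2 ≤ N * ∑ x ∈ A, F x ^ 2 := by
    rw [← sum_subset (subset_univ A) fun v _ hv => by rw [hf v hv, zero_mul]]
    exact (sum_mul_sq_le_sq_mul_sq A f F).trans (mul_le_mul_of_nonneg_right
      (sum_le_sum_of_subset_of_nonneg (subset_univ A) fun v _ _ => sq_nonneg _) (by positivity))
  have h6 : (∑ x ∈ A, F x ^ 2) ^ 2 ≤ A.card * ∑ x, F x ^ 4 := by
    refine sq_sum_le_card_mul_sum_sq.trans (mul_le_mul_of_nonneg_left ?_ a0.le)
    simp only [← pow_mul]
    exact sum_le_sum_of_subset_of_nonneg (subset_univ A) fun v _ _ => by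
      rw [pow_mul]; exact sq_nonneg _
  have h7 : Real.exp (L / 4) ^ 2 * ∑ x ∈ A, F x ^ 2 ≤ N := by
    refine (abs_le_of_sq_le_sq' ?_ N0).2
    calc _ = Real.exp (L / 4) ^ 4 * (∑ x ∈ A, F x ^ 2) ^ 2 := by ring
      _ ≤ 2 ^ d / A.card * (A.card * ∑ x, F x ^ 4) := by rw [h4]; gcongr
      _ = 2 ^ d * ∑ x, F x ^ 4 := by field_simp
      _ ≤ _ := h1
  have h8 : Real.exp (L / 4) * ∑ x, f x * F x ≤ N := by
    refine (abs_le_of_sq_le_sq' ?_ N0).2
    calc _ = Real.exp (L / 4) ^ 2 * (∑ x, f x * F x) ^ 2 := by ring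
      _ ≤ Real.exp (L / 4) ^ 2 * (N * ∑ x ∈ A, F x ^ 2) := by gcongr
      _ = N * (Real.exp (L / 4) ^ 2 * ∑ x ∈ A, F x ^ 2) := by ring
      _ ≤ N * N := by gcongr
      _ = _ := by ring
  rw [cube_energy]
  have h9 : L * N ≤ Real.log 3 * (infl f / 2) := by nlinarith
  nlinarith [mul_le_mul_of_nonneg_left h9 (Nat.cast_nonneg (α := ℝ) d)]

theorem cube_cover {d : ℕ} (hd : 0 < d) (v : Fin d → Bool) :
    greedyCover (cube d) v ≤ ENNReal.ofReal (215 * (cube d).edgeFinset.card) := by
  have l3 : 0 ≤ Real.log 3 := Real.log_nonneg (by norm_num)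
  have l4 : Real.log 3 ≤ 11 / 10 := by
    rw [Real.log_le_iff_le_exp (by norm_num)]
    have h1 := Real.exp_one_gt_d9
    have h4 := Real.quadratic_le_exp_of_nonneg (x := 1 / 10) (by norm_num)
    have h5 : Real.exp (11 / 10) = Real.exp 1 * Real.exp (1 / 10) := by
      rw [← Real.exp_add]; norm_num
    nlinarith
  refine (fk_only hd cube_deg (by positivity) (cube_fk d) v).trans (ENNReal.ofReal_le_ofReal ?_)
  have hs : (Fintype.card (Fin d → Bool) : ℝ) * d = 2 * (cube d).edgeFinset.card := by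
    rw [← deg_sum]; simp [cube_deg]
  have : (0 : ℝ) ≤ (cube d).edgeFinset.card := Nat.cast_nonneg _
  calc _ = (cube d).edgeFinset.card + 97 * Real.log 3 *
        ((Fintype.card (Fin d → Bool) : ℝ) * d) := by ring
    _ ≤ _ := by rw [hs]; nlinarith

end Pool.Agent.Lib.MP_7c147c_pr
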