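import Mathlib

namespace Pool.Agent.Lib.MP_7c147c_pr

open Finset

variable {V : Type} [Fintype V] [DecidableEq V] (G : SimpleGraph V) [DecidableRel G.Adj]

/-- neighbours of `v` along edges outside the visited set `U` -/
def fresh (v : V) (U : Finset (Sym2 V)) : Finset V :=
  (G.neighborFinset v).filter fun w => s(v, w) ∉ U

/-- the possible next vertices of the greedy walk -/
def moves (v : V) (U : Finset (Sym2 V)) : Finset V :=
  if (fresh G v U).Nonempty then fresh G v U else G.neighborFinset v

/-- probability that the walk moving uniformly in `mv`, at `v` with visited set `U`, has not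
traversed all edges after `t` further steps -/
noncomputable def surv (mv : V → Finset (Sym2 V) → Finset V) : ℕ → V → Finset (Sym2 V) → ℝ
  | 0, _, U => if G.edgeFinset ⊆ U then 0 else 1
  | t + 1, v, U => if G.edgeFinset ⊆ U then 0 else
      (∑ w ∈ mv v U, surv mv t w (insert s(v, w) U)) / (mv v U).card

/-- expected edge cover time of the greedy walk started at `v` -/
noncomputable def greedyCover (v : V) : ENNReal :=
  ∑' t, ENNReal.ofReal (surv G (moves G) t v ∅)

/-- expected edge cover time of the simple walk started at `v` -/
noncomputable def simpleCover (v : V) : ENNReal :=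
  ∑' t, ENNReal.ofReal (surv G (fun u _ => G.neighborFinset u) t v ∅)

/-- the sum over all edges of the squared increments -/
noncomputable def energy (f : V → ℝ) : ℝ := (∑ v, ∑ w ∈ G.neighborFinset v, (f v - f w) ^ 2) / 2

end Pool.Agent.Lib.MP_7c147c_pr
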