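import Pool.Agent.Lib.MP_7c147c_pr.Prof

/-! The greedy walk under a logarithmic Faber-Krahn inequality. -/

set_option linter.unusedSectionVars false

namespace Pool.Agent.Lib.MP_7c147c_pr

open Finset

variable {V : Type} [Fintype V] [DecidableEq V] {G : SimpleGraph V} [DecidableRel G.Adj]

/-- logarithmic Faber-Krahn inequality with constant `σ` -/
def FK (G : SimpleGraph V) [DecidableRel G.Adj] (d : ℕ) (σ : ℝ) : Prop :=
  ∀ (A : Finset V) (f : V → ℝ), (∀ v ∉ A, f v = 0) →
    Real.log ((Fintype.card V : ℝ) / A.card) * (d * ∑ v, f v ^ 2) ≤ σ * energy G f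

theorem energy_le {f g : V → ℝ} (h : ∀ v w, |g v - g w| ≤ |f v - f w|) :
    energy G g ≤ energy G f := by
  unfold energy
  exact div_le_div_of_nonneg_right
    (sum_le_sum fun v _ => sum_le_sum fun w _ => sq_le_sq.2 (h v w)) (by norm_num)

theorem cap {d : ℕ} {σ : ℝ} (hσ0 : 0 ≤ σ) (hσ : FK G d σ) {f : V → ℝ} (hf : ∑ v, f v = 0) {b : ℝ}
    (hb : 0 < b) {S : Finset V} (hS : S.Nonempty) (hfS : ∀ v ∈ S, f v ≤ -b) :
    d * b ^ 2 * S.card * (1 + Real.log ((Fintype.card V : ℝ) / S.card)) ≤ 8 * σ * energy G f := by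
  set n : ℝ := (Fintype.card V : ℝ) with hn
  set A := univ.filter fun v => f v ≤ -b / 2 with hA
  have hSA : S ⊆ A := fun v hv => mem_filter.2 ⟨mem_univ v, by have := hfS v hv; linarith⟩
  have s0 : (0 : ℝ) < S.card := by exact_mod_cast hS.card_pos
  have sa : (S.card : ℝ) ≤ A.card := by exact_mod_cast card_le_card hSA
  have a0 : (0 : ℝ) < A.card := by linarith
  have an : (A.card : ℝ) + (Aᶜ).card = n := by rw [hn]; exact_mod_cast card_add_card_compl A
  have n0 : 0 < n := by have : (0 : ℝ) ≤ (Aᶜ).card := Nat.cast_nonneg _; linarith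
  have d0 : (0 : ℝ) ≤ d := Nat.cast_nonneg _
  have g1 : n * (b / 2) ≤ ∑ v, max (f v + b / 2) 0 := by
    have : ∑ v, (f v + b / 2) ≤ ∑ v, max (f v + b / 2) 0 := sum_le_sum fun v _ => le_max_left _ _
    rwa [sum_add_distrib, hf, zero_add, sum_const, nsmul_eq_mul, card_univ] at this
  have z1 : ∀ v ∉ Aᶜ, max (f v + b / 2) 0 = 0 := fun v hv => by
    have := (mem_filter.1 (not_not.1 (mem_compl.not.1 hv))).2
    exact max_eq_right (by linarith)
  have c0 : (0 : ℝ) < (Aᶜ).card := by
    by_contra z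
    have z2 : Aᶜ = ∅ := card_eq_zero.1 (by exact_mod_cast le_antisymm (not_lt.1 z) (by positivity))
    rw [sum_eq_zero fun v _ => z1 v (by simp [z2])] at g1
    nlinarith
  have g2 : n * (b / 2) ^ 2 ≤ ∑ v, max (f v + b / 2) 0 ^ 2 := by
    have h1 := sq_sum_le_card_mul_sum_sq (s := univ) (f := fun v => max (f v + b / 2) 0)
    rw [card_univ, ← hn] at h1
    have h2 : (n * (b / 2)) ^ 2 ≤ (∑ v, max (f v + b / 2) 0) ^ 2 := by gcongr
    refine le_of_mul_le_mul_left ?_ n0
    nlinarith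
  have e1 := (hσ Aᶜ _ z1).trans (mul_le_mul_of_nonneg_left (energy_le (f := f) fun v w => by
    simpa using abs_max_sub_max_le_abs (f v + b / 2) (f w + b / 2) 0) hσ0)
  have l1 : (A.card : ℝ) / n ≤ Real.log (n / (Aᶜ).card) := by
    have := Real.one_sub_inv_le_log_of_pos (x := n / (Aᶜ).card) (by positivity)
    rw [inv_div] at this
    refine le_trans (le_of_eq ?_) this
    field_simp
    linarith
  have k1 : A.card * (d * (b / 2) ^ 2) ≤ σ * energy G f := by
    refine le_trans ?_ e1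
    calc A.card * (d * (b / 2) ^ 2) = (A.card : ℝ) / n * (d * (n * (b / 2) ^ 2)) := by field_simp
      _ ≤ _ := mul_le_mul l1 (by gcongr) (by positivity) (le_trans (by positivity) l1)
  have e2 := (hσ A (fun v => max (-b / 2 - f v) 0) fun v hv => max_eq_right (by
    have : ¬ f v ≤ -b / 2 := fun z => hv (mem_filter.2 ⟨mem_univ v, z⟩)
    linarith [not_le.1 this])).trans (mul_le_mul_of_nonneg_left (energy_le (f := f) fun v w => by
      have := abs_max_sub_max_le_abs (-b / 2 - f v) (-b / 2 - f w) 0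
      rwa [show -b / 2 - f v - (-b / 2 - f w) = -(f v - f w) by ring, abs_neg] at this) hσ0)
  have g3 : S.card * (b / 2) ^ 2 ≤ ∑ v, max (-b / 2 - f v) 0 ^ 2 := by
    refine le_trans ?_ (sum_le_sum_of_subset_of_nonneg (subset_univ S) fun v _ _ => sq_nonneg _)
    rw [← nsmul_eq_mul]
    refine card_nsmul_le_sum _ _ _ fun v hv => ?_
    have := hfS v hv
    exact pow_le_pow_left₀ (by positivity) (le_max_of_le_left (by linarith)) 2
  have l2 : 0 ≤ Real.log (n / A.card) := Real.log_nonneg (by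
    rw [le_div_iff₀ a0]; linarith)
  have k2 : Real.log (n / A.card) * (d * (S.card * (b / 2) ^ 2)) ≤ σ * energy G f :=
    le_trans (by gcongr) e2
  have l3 : Real.log (n / S.card) ≤ Real.log (n / A.card) + (A.card / S.card - 1) := by
    have h1 : n / S.card = n / A.card * (A.card / S.card) := by field_simp
    rw [h1, Real.log_mul (by positivity) (by positivity)]
    have := Real.log_le_sub_one_of_pos (x := (A.card : ℝ) / S.card) (by positivity)
    linarith
  have l4 : S.card * (1 + Real.log (n / S.card)) ≤ S.card * Real.log (n / A.card) + A.card := by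
    have h1 : (S.card : ℝ) * (A.card / S.card) = A.card := by field_simp
    nlinarith
  have l5 := mul_le_mul_of_nonneg_left l4 (show 0 ≤ d * (b / 2) ^ 2 by positivity)
  nlinarith

theorem energy_sub_const (f : V → ℝ) (c : ℝ) : energy G (fun v => f v - c) = energy G f := by
  unfold energy; simp

theorem fk_hit {d : ℕ} (hd : ∀ v, G.degree v = d) {σ : ℝ} (hσ0 : 0 ≤ σ) (hσ : FK G d σ)
    {S : Finset V} {h : V → ℝ} (hS : S.Nonempty) (H : IsHit G S h) :
    energy G h ≤ 8 * σ * d * (Fintype.card V : ℝ) ^ 2 /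
      (S.card * (1 + Real.log ((Fintype.card V : ℝ) / S.card))) := by
  set n : ℝ := (Fintype.card V : ℝ) with hn
  have s0 : (0 : ℝ) < S.card := by exact_mod_cast hS.card_pos
  have sn : (S.card : ℝ) ≤ n := by rw [hn]; exact_mod_cast card_le_univ S
  have n0 : 0 < n := by linarith
  have l0 : 0 ≤ Real.log (n / S.card) := Real.log_nonneg (by rw [le_div_iff₀ s0]; linarith)
  have d0 : (0 : ℝ) ≤ d := Nat.cast_nonneg _
  set m := (∑ v, h v) / n with hm
  have e1 : energy G h = d * n * m := by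
    rw [hit_energy H, hm]; simp only [hd, ← mul_sum]; field_simp
  have m0 : 0 ≤ m := div_nonneg (sum_nonneg fun v _ => H.2.2 v) n0.le
  rcases m0.eq_or_lt with z | z
  · rw [e1, ← z, mul_zero]; positivity
  have := cap hσ0 hσ (f := fun v => h v - m) (by
    rw [sum_sub_distrib, sum_const, nsmul_eq_mul, card_univ, ← hn, hm]; field_simp; ring) z hS
    fun v hv => by rw [H.1 v hv]; linarith
  rw [energy_sub_const, ← hn, e1] at this
  rw [e1, le_div_iff₀ (by positivity)]
  refine le_of_mul_le_mul_left ?_ z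
  nlinarith [mul_le_mul_of_nonneg_left this n0.le]

theorem fk_res {d : ℕ} (hd0 : 0 < d) {σ : ℝ} (hσ0 : 0 ≤ σ) (hσ : FK G d σ) (f : V → ℝ) (x y : V) :
    (f x - f y) ^ 2 ≤ 32 * σ / (d * (1 + Real.log (Fintype.card V))) * energy G f := by
  set n : ℝ := (Fintype.card V : ℝ) with hn
  have n1 : 1 ≤ n := by rw [hn]; exact_mod_cast Fintype.card_pos_iff.2 ⟨x⟩
  have l0 := Real.log_nonneg n1
  have d0 : (0 : ℝ) < d := by exact_mod_cast hd0
  set m := (∑ v, f v) / n with hm
  have hz : ∑ v, (f v - m) = 0 := by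
    rw [sum_sub_distrib, sum_const, nsmul_eq_mul, card_univ, ← hn, hm]; field_simp; ring
  have e0 := energy_nonneg G f
  have one : ∀ z, d * (f z - m) ^ 2 * (1 + Real.log n) ≤ 8 * σ * energy G f := by
    intro z
    rcases lt_trichotomy (f z - m) 0 with h | h | h
    · have := cap hσ0 hσ hz (b := -(f z - m)) (by linarith) (singleton_nonempty z)
        fun v hv => by rw [mem_singleton.1 hv]; linarith
      rw [energy_sub_const] at this
      simpa [hn, neg_sq, sub_sq_comm m] using this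
    · rw [h]; simp only [ne_eq, OfNat.ofNat_ne_zero, not_false_eq_true, zero_pow, mul_zero,
        zero_mul]; positivity
    · have := cap hσ0 hσ (f := fun v => m - f v) (by
        simp only [← neg_sub (f _) m, sum_neg_distrib, hz, neg_zero]) h (singleton_nonempty z)
        fun v hv => by rw [mem_singleton.1 hv]; linarith
      have e : energy G (fun v => m - f v) ≤ energy G f := energy_le fun v w => by
        rw [show m - f v - (m - f w) = -(f v - f w) by ring, abs_neg]
      have e' := mul_le_mul_of_nonneg_left e (show 0 ≤ 8 * σ by positivity)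
      simp only [card_singleton, Nat.cast_one, mul_one, div_one, ← hn] at this
      linarith
  rw [div_mul_eq_mul_div, le_div_iff₀ (by positivity)]
  have h1 := one x
  have h2 := one y
  have h3 : (f x - f y) ^ 2 ≤ 2 * (f x - m) ^ 2 + 2 * (f y - m) ^ 2 := by
    nlinarith [sq_nonneg (f x - m + (f y - m))]
  nlinarith [mul_le_mul_of_nonneg_right h3 (show 0 ≤ d * (1 + Real.log n) by positivity)]

theorem sum_root (n : ℕ) (hn : 1 ≤ n) :
    ∑ j ∈ range n, 1 / (((j : ℝ) + 1) * √(1 + Real.log (n / ((j : ℝ) + 1)))) ≤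
      4 * √(1 + Real.log n) := by
  have n0 : (0 : ℝ) < n := by exact_mod_cast hn
  have key : ∀ m : ℕ, m + 1 ≤ n →
      ∑ j ∈ range m, 1 / (((j : ℝ) + 1) * √(1 + Real.log (n / ((j : ℝ) + 1)))) ≤
        4 * √(1 + Real.log n) - 4 * √(1 + Real.log (n / ((m : ℝ) + 1))) := by
    intro m
    induction m with
    | zero => simp
    | succ m ih =>
      intro hm
      have h1 := ih (by omega)
      rw [sum_range_succ]
      push_cast
      have hm' : (m : ℝ) + 1 + 1 ≤ n := by exact_mod_cast hm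
      have m0 : (0 : ℝ) ≤ m := Nat.cast_nonneg _
      have l0 : 0 ≤ Real.log (n / ((m : ℝ) + 1 + 1)) :=
        Real.log_nonneg (by rw [le_div_iff₀ (by positivity)]; linarith)
      have l1 : Real.log (n / ((m : ℝ) + 1)) =
          Real.log (n / ((m : ℝ) + 1 + 1)) + Real.log (((m : ℝ) + 1 + 1) / (m + 1)) := by
        rw [← Real.log_mul (by positivity) (by positivity)]
        congr 1; field_simp
      have l2 := Real.one_sub_inv_le_log_of_pos (x := ((m : ℝ) + 1 + 1) / (m + 1)) (by positivity)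
      have l3 : 1 ≤ 2 * ((m : ℝ) + 1) * (1 - (((m : ℝ) + 1 + 1) / (m + 1))⁻¹) := by
        rw [inv_div, mul_sub, mul_div_assoc', le_sub_comm, div_le_iff₀ (by positivity)]
        nlinarith
      have l4 : 0 ≤ Real.log (((m : ℝ) + 1 + 1) / (m + 1)) :=
        Real.log_nonneg (by rw [le_div_iff₀ (by positivity)]; linarith)
      set p := √(1 + Real.log (n / ((m : ℝ) + 1))) with hp
      set q := √(1 + Real.log (n / ((m : ℝ) + 1 + 1))) with hq
      have p2 : p ^ 2 = 1 + Real.log (n / ((m : ℝ) + 1)) := Real.sq_sqrt (by linarith)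
      have q2 : q ^ 2 = 1 + Real.log (n / ((m : ℝ) + 1 + 1)) := Real.sq_sqrt (by linarith)
      have p0 : 0 < p := Real.sqrt_pos.2 (by linarith)
      have : 1 / (((m : ℝ) + 1) * p) ≤ 4 * p - 4 * q := by
        rw [div_le_iff₀ (by positivity)]
        have h3 : 1 ≤ 2 * ((m : ℝ) + 1) * (p ^ 2 - q ^ 2) := by
          refine l3.trans (mul_le_mul_of_nonneg_left ?_ (by positivity))
          linarith
        nlinarith [mul_nonneg (show 0 ≤ (m : ℝ) + 1 by positivity) (sq_nonneg (p - q))]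
      linarith
  obtain ⟨m, rfl⟩ : ∃ m, n = m + 1 := ⟨n - 1, by omega⟩
  have h1 := key m le_rfl
  rw [sum_range_succ]
  have h2 : (((m + 1 : ℕ) : ℝ)) / ((m : ℝ) + 1) = 1 := by push_cast; field_simp
  rw [h2, Real.log_one, add_zero, Real.sqrt_one] at h1 ⊢
  have h3 : 1 / (((m : ℝ) + 1) * 1) ≤ 1 := by
    rw [div_le_one (by positivity)]; have : (0 : ℝ) ≤ m := Nat.cast_nonneg _; linarith
  linarith

theorem fk_main {d : ℕ} (hd0 : 0 < d) (hd : ∀ v, G.degree v = d) {ρ σ : ℝ} (hρ0 : 0 ≤ ρ)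
    (hσ0 : 0 ≤ σ) (hρ : ∀ (f : V → ℝ) x y, (f x - f y) ^ 2 ≤ ρ * energy G f) (hσ : FK G d σ)
    (v0 : V) : greedyCover G v0 ≤ ENNReal.ofReal (G.edgeFinset.card +
      17 * Fintype.card V * √(d * ρ * σ * (1 + Real.log (Fintype.card V)))) := by
  have n1 : 1 ≤ Fintype.card V := Fintype.card_pos_iff.2 ⟨v0⟩
  refine (profile hρ0 (fun v => by rw [hd v]; exact hd0) hρ
    (fun s => 8 * σ * d * (Fintype.card V : ℝ) ^ 2 / (s * (1 + Real.log ((Fintype.card V : ℝ) / s))))
    (fun S h hS H => fk_hit hd hσ0 hσ hS H) v0).trans (ENNReal.ofReal_le_ofReal ?_)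
  have h1 := sum_root _ n1
  set n : ℝ := (Fintype.card V : ℝ) with hn
  have n0 : 1 ≤ n := by rw [hn]; exact_mod_cast n1
  have h2 : ∀ j ∈ range (Fintype.card V), √(ρ * (8 * σ * d * n ^ 2 /
      (((j + 1 : ℕ) : ℝ) * (1 + Real.log (n / ((j + 1 : ℕ) : ℝ)))))) / √((j : ℝ) + 1) =
      √8 * n * √(d * ρ * σ) * (1 / (((j : ℝ) + 1) * √(1 + Real.log (n / ((j : ℝ) + 1))))) := by
    intro j hj
    have hj' : (j : ℝ) + 1 ≤ n := by rw [hn]; exact_mod_cast mem_range.1 hj
    have l0 : 0 ≤ Real.log (n / ((j : ℝ) + 1)) :=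
      Real.log_nonneg (by rw [le_div_iff₀ (by positivity)]; linarith)
    push_cast
    have e : ρ * (8 * σ * d * n ^ 2 / (((j : ℝ) + 1) * (1 + Real.log (n / ((j : ℝ) + 1))))) =
        8 * (n ^ 2 * (d * ρ * σ)) / (((j : ℝ) + 1) * (1 + Real.log (n / ((j : ℝ) + 1)))) := by ring
    rw [e, Real.sqrt_div' _ (by positivity), Real.sqrt_mul (by norm_num), Real.sqrt_mul (by positivity),
      Real.sqrt_sq (by linarith), Real.sqrt_mul (show 0 ≤ (j : ℝ) + 1 by positivity)]
    have p0 : 0 < √((j : ℝ) + 1) := by positivity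
    have p1 : 0 < √(1 + Real.log (n / ((j : ℝ) + 1))) := by positivity
    have p2 : √((j : ℝ) + 1) * √((j : ℝ) + 1) = j + 1 := Real.mul_self_sqrt (by positivity)
    set s := √((j : ℝ) + 1)
    set t := √(1 + Real.log (n / ((j : ℝ) + 1)))
    rw [← p2]
    field_simp
  rw [sum_congr rfl h2, ← mul_sum, Real.sqrt_mul (show 0 ≤ d * ρ * σ by positivity)]
  have h3 : √8 ≤ 17 / 6 := Real.sqrt_le_iff.2 ⟨by norm_num, by norm_num⟩
  have h4 : √8 * n * √(d * ρ * σ) * ∑ j ∈ range (Fintype.card V),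
      1 / (((j : ℝ) + 1) * √(1 + Real.log (n / ((j : ℝ) + 1)))) ≤
      17 / 6 * n * √(d * ρ * σ) * (4 * √(1 + Real.log n)) := by gcongr
  linarith

end Pool.Agent.Lib.MP_7c147c_pr
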