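import Pool.Agent.Lib.MP_7c147c_pr.Cells

/-! The greedy walk on a transitive graph: the bound by return probabilities. -/

namespace Pool.Agent.Lib.MP_7c147c_pr

open Finset Matrix

variable {V : Type} [Fintype V] [DecidableEq V] {G : SimpleGraph V} [DecidableRel G.Adj]

theorem neg_type (hE : 0 < G.edgeFinset.card) {H : V → V → ℝ} (hH : ∀ a, IsHit G {a} (H a))
    (c : V → ℝ) (hc : ∑ a, c a = 0) : c ⬝ᵥ (Matrix.of H *ᵥ c) ≤ 0 := by
  set f : V → ℝ := fun x => ∑ a, c a * H a x with hf
  have l1 : ∀ x, lap G f x = ∑ a, c a * lap G (H a) x := fun x => by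
    simp only [lap, hf, mul_sum, ← sum_sub_distrib, mul_sub]
    exact sum_comm
  have e1 := energy_nonneg G f
  rw [energy_eq] at e1
  simp only [l1, mul_sum] at e1
  rw [sum_comm] at e1
  have e2 : ∀ a, ∑ x, f x * (c a * lap G (H a) x) =
      c a * ∑ v, (G.degree v : ℝ) * f v - 2 * G.edgeFinset.card * (c a * f a) := fun a => by
    simp only [mul_left_comm (f _), ← mul_sum]
    rw [hit_pair (hH a)]
    ring
  simp only [e2, sum_sub_distrib, ← sum_mul, ← mul_sum, hc, zero_mul] at e1
  have e3 : c ⬝ᵥ (Matrix.of H *ᵥ c) = ∑ a, c a * f a := by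
    simp only [dotProduct, mulVec, of_apply, hf, mul_sum]
    rw [sum_comm]
    exact sum_congr rfl fun a _ => sum_congr rfl fun b _ => by ring
  have : (0 : ℝ) < G.edgeFinset.card := by exact_mod_cast hE
  rw [e3]
  nlinarith

theorem heat (hc : G.Connected) (ht : ∀ u v, ∃ φ : G ≃g G, φ u = v) {d : ℕ} (hd0 : 0 < d)
    (hd : ∀ v, G.degree v = d) (v : V) {t : ℕ} (t1 : 1 ≤ t) :
    greedyCover G v ≤ ENNReal.ofReal (G.edgeFinset.card + 136 * Fintype.card V ^ 2 * t *
      ((G.adjMatrix ℝ ^ (2 * t)) v v / d ^ (2 * t)) * harmonic (Fintype.card V)) := by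
  obtain ⟨ρ, hρ⟩ := exists_rho hc
  have hd1 : ∀ v, 0 < G.degree v := fun v => by rw [hd]; exact hd0
  choose H hH using fun a : V => exists_hit G hρ hd1 {a} (singleton_nonempty a)
  have hE : 0 < G.edgeFinset.card := by
    obtain ⟨w, hw⟩ := (G.degree_pos_iff_exists_adj v).1 (hd1 v)
    exact card_pos.2 ⟨s(v, w), by simpa using hw⟩
  have E0 : (0 : ℝ) < G.edgeFinset.card := by exact_mod_cast hE
  have H0 : ∀ a, H a a = 0 := fun a => (hH a).1 a (mem_singleton_self a)
  have hs : ∀ a b, H a b = H b a := fun a b => by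
    have s1 := lap_symm (G := G) (H a) (H b)
    rw [hit_pair (hH a), hit_pair (hH b), hit_trans ht (hH a) (hH b)] at s1
    nlinarith
  obtain ⟨n, hn⟩ : ∃ n : ℝ, n = Fintype.card V := ⟨_, rfl⟩
  have n1 : 1 ≤ n := by rw [hn]; exact_mod_cast Fintype.card_pos_iff.2 ⟨v⟩
  have d0 : (0 : ℝ) < d := by exact_mod_cast hd0
  have d1 : (1 : ℝ) ≤ d := by exact_mod_cast hd0
  have nd : n * d = 2 * G.edgeFinset.card := by
    rw [← deg_sum]
    simp [hd, hn]
  obtain ⟨P, hP⟩ : ∃ P : Matrix V V ℝ, P = (d : ℝ)⁻¹ • G.adjMatrix ℝ := ⟨_, rfl⟩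
  have P1 : ∀ x y, P x y = if G.Adj x y then (d : ℝ)⁻¹ else 0 := fun x y => by
    simp [hP]
  have P2 : ∀ (f : V → ℝ) x, ∑ y, P x y * f y = (∑ y ∈ G.neighborFinset x, f y) / d := by
    intro f x
    simp only [P1, ite_mul, zero_mul]
    rw [← sum_filter, ← mul_sum, div_eq_inv_mul]
    congr 2
    ext y
    simp
  have P0 : ∀ s x y, 0 ≤ (P ^ s) x y := by
    intro s
    induction s with
    | zero => intro x y; rw [pow_zero, one_apply]; split_ifs <;> norm_num
    | succ s ih =>
      intro x y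
      rw [pow_succ', mul_apply]
      exact sum_nonneg fun u _ => mul_nonneg (by rw [P1]; split_ifs <;> positivity) (ih u y)
  have Pr : ∀ s x, ∑ y, (P ^ s) x y = 1 := by
    intro s
    induction s with
    | zero => intro x; simp [one_apply]
    | succ s ih =>
      intro x
      simp only [pow_succ', mul_apply]
      rw [sum_comm]
      simp only [← mul_sum, ih]
      rw [P2 (fun _ => 1)]
      simp [hd, d0.ne']
  have Pt : Pᵀ = P := by
    ext x y
    simp only [transpose_apply, P1, G.adj_comm]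
  have Ps : ∀ s x y, (P ^ s) x y = (P ^ s) y x := fun s x y => by
    rw [← transpose_apply (P ^ s), transpose_pow, Pt]
  have Pa : ∀ (φ : G ≃g G) s x y, (P ^ s) (φ x) (φ y) = (P ^ s) x y := by
    intro φ s
    induction s with
    | zero => intro x y; simp [one_apply]
    | succ s ih =>
      intro x y
      simp only [pow_succ', mul_apply]
      rw [← Equiv.sum_comp φ.toEquiv]
      refine sum_congr rfl fun u _ => ?_
      rw [← ih u y, P1, P1]
      simp [φ.map_adj_iff]
  have Pd : ∀ s x, (P ^ s) x x = (P ^ s) v v := fun s x => by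
    obtain ⟨φ, rfl⟩ := ht v x
    exact Pa φ s v v
  have W : ∀ (s : ℕ) x y, (P ^ s * Matrix.of H) x y =
      H x y - s + n * ∑ r ∈ range s, (P ^ r) x y := by
    intro s
    induction s with
    | zero => intro x y; simp
    | succ s ih =>
      intro x y
      have h1 : ∑ u, P x u * H u y = H x y - 1 + n * (P ^ 0) x y := by
        simp only [hs _ y]
        rw [P2, pow_zero, one_apply, div_eq_iff d0.ne']
        split_ifs with z
        · rw [z, hit_nbr (hH y), H0, hd]
          linarith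
        · have hl := (hH y).2.1 x (by simpa using z)
          rw [lap, sum_sub_distrib, sum_const, nsmul_eq_mul,
            SimpleGraph.card_neighborFinset_eq_degree, hd] at hl
          linarith
      have h2 := Pr 1 x
      rw [pow_one] at h2
      rw [pow_succ', mul_assoc, mul_apply, sum_range_succ']
      simp only [ih, mul_add, mul_sub, sum_add_distrib, sum_sub_distrib, h1, ← sum_mul, h2,
        pow_succ', mul_apply, mul_sum, mul_left_comm _ n]
      rw [sum_comm]
      push_cast
      ring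
  have HP : Matrix.of H * P ^ t = P ^ t * Matrix.of H := by
    ext x y
    rw [W, hs, sum_congr rfl fun r _ => Ps r x y, ← W, mul_apply, mul_apply]
    exact sum_congr rfl fun u _ => by rw [of_apply, of_apply, hs x, Ps t u, mul_comm]
  obtain ⟨M, hM⟩ : ∃ M, M = P ^ (2 * t) * Matrix.of H := ⟨_, rfl⟩
  have Mn : ∀ c : V → ℝ, ∑ a, c a = 0 → c ⬝ᵥ (M *ᵥ c) ≤ 0 := fun c h => by
    have h1 := neg_type hE hH (P ^ t *ᵥ c) (by
      simp only [mulVec, dotProduct]
      rw [sum_comm]
      simp only [← sum_mul, Ps t _ _, Pr, one_mul, h])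
    rw [hM, two_mul, pow_add, mul_assoc, ← HP, ← mulVec_mulVec, ← mulVec_mulVec,
      dotProduct_mulVec, ← mulVec_transpose, transpose_pow, Pt]
    exact h1
  obtain ⟨K, hK⟩ : ∃ K : V → V → ℝ, K = fun x y => n * ∑ r ∈ range (2 * t), (P ^ r) x y := ⟨_, rfl⟩
  have MK : ∀ x y, M x y = H x y - 2 * t + K x y := fun x y => by
    rw [hM, W, hK]
    push_cast
    rfl
  have Kd : ∀ x, K x x = K v v := fun x => by simp only [hK, Pd _ x]
  have Ky : ∀ x y, K x y = K y x := fun x y => by
    simp only [hK]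
    rw [sum_congr rfl fun r _ => Ps r x y]
  obtain ⟨e, he⟩ : ∃ e : V → V → ℝ, e = fun x y => H x y + K x y - K v v := ⟨_, rfl⟩
  have es : ∀ x y, e x y = e y x := fun x y => by simp only [he, hs x y, Ky x y]
  have M3 : ∀ (x y z : V) (a b c : ℝ), a + b + c = 0 →
      a * b * e x y + a * c * e x z + b * c * e y z ≤ 0 := fun x y z a b c h => by
    have h1 := Mn (Pi.single x a + Pi.single y b + Pi.single z c) (by simp [sum_add_distrib, h])
    simp only [mulVec_add, add_dotProduct, single_dotProduct, mulVec_single, Pi.add_apply,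
      Pi.smul_apply, col_apply, MK, H0, Kd, MulOpposite.smul_eq_mul_unop, MulOpposite.unop_op,
      hs y x, hs z x, hs z y, Ky y x, Ky z x, Ky z y] at h1
    obtain rfl : c = -a - b := by linarith
    simp only [he]
    linarith
  have e0 : ∀ x y, 0 ≤ e x y := fun x y => by
    have := M3 x y y 1 (-1) 0 (by norm_num)
    linarith
  have et : ∀ x y z, e x z ≤ 2 * e x y + 2 * e y z := fun x y z => by
    have := M3 x y z 1 (-2) 1 (by norm_num)
    linarith
  obtain ⟨p, hp⟩ : ∃ p, p = (P ^ (2 * t)) v v := ⟨_, rfl⟩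
  have q0 : ∀ x, ∑ u, (P ^ t) x u ^ 2 = p := fun x => by
    rw [hp, ← Pd _ x, two_mul, pow_add, mul_apply]
    exact sum_congr rfl fun u _ => by rw [sq, Ps t u x]
  have q1 : ∀ x y, (P ^ (2 * t)) x y ≤ p := fun x y => by
    have h1 : ∑ u, 2 * ((P ^ t) x u * (P ^ t) u y) ≤ ∑ u, ((P ^ t) x u ^ 2 + (P ^ t) y u ^ 2) :=
      sum_le_sum fun u _ => by
        rw [Ps t u y]
        nlinarith [sq_nonneg ((P ^ t) x u - (P ^ t) y u)]
    rw [sum_add_distrib, q0, q0, ← mul_sum, ← mul_apply, ← pow_add, ← two_mul] at h1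
    linarith
  have q2 : ∀ r x, (P ^ (r + 2 * t)) x x ≤ p := fun r x => by
    rw [pow_add, mul_apply, ← one_mul p, ← Pr r x, sum_mul]
    exact sum_le_sum fun u _ => mul_le_mul_of_nonneg_left (q1 u x) (P0 r x u)
  have q3 : 1 ≤ n * p := by
    rw [← Pr (2 * t) v, hn, ← card_univ, ← nsmul_eq_mul]
    exact sum_le_card_nsmul _ _ _ fun y _ => q1 v y
  have p0 : 0 < p := by
    by_contra z
    nlinarith
  have q4 : d * p ≤ 1 := by
    obtain ⟨k, hk⟩ : ∃ k, 2 * t = k + 1 := ⟨2 * t - 1, by omega⟩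
    rw [hp, hk, pow_succ, mul_apply, ← Pr k v, mul_sum]
    refine sum_le_sum fun u _ => ?_
    have := P0 k v u
    rw [P1]
    split_ifs
    · exact le_of_eq (by field_simp)
    · simpa using this
  have av : ∀ (s : ℕ) x, ∑ y, (P ^ s) x y * e x y ≤ s * (n * p) := fun s x => by
    have h1 := W (s + 2 * t) x x
    rw [pow_add, mul_assoc, ← hM, mul_apply, add_comm s, sum_range_add, H0] at h1
    have h2 : ∑ r ∈ range s, (P ^ (2 * t + r)) x x ≤ s * p := by
      have := sum_le_card_nsmul (range s) (fun r => (P ^ (2 * t + r)) x x) p fun r _ => by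
        rw [add_comm]; exact q2 r x
      rwa [card_range, nsmul_eq_mul] at this
    have h3 : ∑ y, (P ^ s) x y * e x y =
        ∑ y, (P ^ s) x y * M y x + (∑ y, (P ^ s) x y) * (2 * t - K v v) := by
      rw [sum_mul, ← sum_add_distrib]
      refine sum_congr rfl fun y _ => ?_
      rw [es, MK, he]
      ring
    have h4 : K v v = n * ∑ r ∈ range (2 * t), (P ^ r) x x := by rw [← Kd x, hK]
    have h5 := mul_le_mul_of_nonneg_left h2 (by linarith : 0 ≤ n)
    have : (0 : ℝ) ≤ s := Nat.cast_nonneg s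
    rw [h3, h1, Pr, h4]
    push_cast
    linarith
  have t0 : (1 : ℝ) ≤ t := by exact_mod_cast t1
  have hb : ∀ x, ⌈1 / (2 * p)⌉₊ ≤ (univ.filter fun y => e x y ≤ 4 * t * (n * p)).card := by
    intro x
    have h1 := av (2 * t) x
    have h2 : ∑ y, (P ^ (2 * t)) x y * (4 * t * (n * p)) ≤ ∑ y, ((P ^ (2 * t)) x y * e x y +
        if e x y ≤ 4 * t * (n * p) then p * (4 * t * (n * p)) else 0) := sum_le_sum fun y _ => by
      split_ifs with z
      · have := mul_nonneg (P0 (2 * t) x y) (e0 x y)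
        have := mul_le_mul_of_nonneg_right (q1 x y) (by positivity : 0 ≤ 4 * t * (n * p))
        linarith
      · rw [add_zero]
        exact mul_le_mul_of_nonneg_left (not_le.1 z).le (P0 _ x y)
    rw [← sum_mul, Pr, sum_add_distrib, ← sum_filter, sum_const, nsmul_eq_mul] at h2
    rw [Nat.ceil_le, div_le_iff₀ (by positivity)]
    push_cast at h1
    have h3 : 0 < t * (n * p) := by positivity
    generalize ((univ.filter fun y => e x y ≤ 4 * t * (n * p)).card : ℝ) = k at h2 ⊢
    refine le_of_mul_le_mul_right ?_ h3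
    linarith
  have K0 : ∀ x y, 0 ≤ K x y := fun x y => by
    rw [hK]
    exact mul_nonneg (by linarith) (sum_nonneg fun r _ => P0 r x y)
  have Ks : ∀ y, ∑ x, K x y ≤ 2 * t * n := fun y => by
    simp only [Ky _ y]
    simp only [hK, ← mul_sum]
    rw [sum_comm]
    simp only [Pr, sum_const, card_range, nsmul_eq_mul]
    push_cast
    linarith
  have hl : ∀ x y, G.Adj x y → H x y ≤ 3 * t * n := fun x y h => by
    have h1 := av 1 x
    rw [pow_one, P2 (e x), div_le_iff₀ d0] at h1
    have h2 := single_le_sum (f := e x) (s := G.neighborFinset x) (fun u _ => e0 x u)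
      (show y ∈ G.neighborFinset x by simpa using h)
    have h3 := single_le_sum (f := fun x => K x v) (fun x _ => K0 x v) (mem_univ v)
    have h4 := Ks v
    have h5 := K0 x y
    have h6 : e x y = H x y + K x y - K v v := by rw [he]
    have h7 := mul_le_mul_of_nonneg_left q4 (by linarith : 0 ≤ n)
    have h8 := mul_le_mul_of_nonneg_left t0 (by linarith : 0 ≤ n)
    push_cast at h1
    linarith
  have b0 : 0 < ⌈1 / (2 * p)⌉₊ := Nat.ceil_pos.2 (by positivity)
  refine (cells hc hd1 hH hs (c := K v v) b0 (by positivity) (by positivity) (by positivity) e0 es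
    et (fun x y => by rw [he]; ring) K0 Ks hb hl v).trans (ENNReal.ofReal_le_ofReal ?_)
  have hp' : (G.adjMatrix ℝ ^ (2 * t)) v v / d ^ (2 * t) = p := by
    rw [hp, hP, smul_pow, Matrix.smul_apply, smul_eq_mul, inv_pow, div_eq_inv_mul]
  have a1 : (1 : ℝ) ≤ harmonic (Fintype.card V) := by
    have := harm_mono (k := 1) (Fintype.card_pos_iff.2 ⟨v⟩)
    simpa using this
  rw [hp', ← hn]
  generalize (harmonic (Fintype.card V) : ℝ) = a at a1 ⊢
  have b1 : 1 / (2 * p) ≤ ⌈1 / (2 * p)⌉₊ := Nat.le_ceil _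
  have p1 : p ≤ 1 := by nlinarith
  have tn : 0 < t * n := by positivity
  have b2 : 4 * (2 * (2 * t * n + 4 * t * (n * p)) + 3 * t * n) / (⌈1 / (2 * p)⌉₊ : ℝ) ≤
      120 * (t * n) * p := by
    refine (div_le_div₀ (c := 60 * (t * n)) (by positivity) (by nlinarith) (by positivity)
      b1).trans (le_of_eq ?_)
    field_simp
    norm_num
  have b3 := mul_le_mul_of_nonneg_right b2 (by linarith : 0 ≤ a)
  have b4 := mul_le_mul_of_nonneg_left a1 (by positivity : 0 ≤ t * n * p)
  have b5 : 4 * (4 * t * (n * p)) + 4 * (2 * (2 * t * n + 4 * t * (n * p)) + 3 * t * n) /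
      (⌈1 / (2 * p)⌉₊ : ℝ) * a ≤ 136 * n * t * p * a := by linarith
  have := mul_le_mul_of_nonneg_left b5 (by linarith : 0 ≤ n)
  linarith

end Pool.Agent.Lib.MP_7c147c_pr
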