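import Pool.Agent.Lib.MP_7c147c_pr.Main

set_option linter.unusedSectionVars false

namespace Pool.Agent.Lib.MP_7c147c_pr

open Finset

variable {V : Type} [Fintype V] [DecidableEq V] {G : SimpleGraph V} [DecidableRel G.Adj]

/-- the operator killed on the edges of `B` -/
noncomputable def kil (G : SimpleGraph V) [DecidableRel G.Adj] (B : Finset (Sym2 V)) (f : V → ℝ)
    (v : V) : ℝ := G.degree v * f v - ∑ w ∈ fresh G v B, f w

theorem minp (hc : G.Connected) {B : Finset (Sym2 V)} (hB : B.Nonempty) (hE : B ⊆ G.edgeFinset)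
    (f : V → ℝ) (hf : ∀ v, 0 ≤ kil G B f v) (v : V) : 0 ≤ f v := by
  obtain ⟨m, -, hm⟩ := exists_min_image univ f ⟨v, mem_univ v⟩
  refine le_trans ?_ (hm v (mem_univ v))
  by_contra hn
  push Not at hn
  have step : ∀ x, f x = f m → ∀ w, G.Adj x w → s(x, w) ∉ B ∧ f w = f m := by
    intro x hx w hw
    have h1 := hf x
    have h2 : kil G B f x = ∑ u ∈ G.neighborFinset x,
        (if s(x, u) ∉ B then f m - f u else f m) := by
      rw [kil, fresh, sum_filter, hx, ← SimpleGraph.card_neighborFinset_eq_degree, ← nsmul_eq_mul,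
        ← sum_const, ← sum_sub_distrib]
      exact sum_congr rfl fun u _ => by split_ifs <;> simp
    have h3 : ∀ u ∈ G.neighborFinset x, (if s(x, u) ∉ B then f m - f u else f m) ≤ 0 := by
      intro u _
      split_ifs
      · exact hn.le
      · exact sub_nonpos.2 (hm u (mem_univ u))
    have h4 := (sum_eq_zero_iff_of_nonpos h3).1 (le_antisymm (sum_nonpos h3) (h2 ▸ h1)) w
      (by simpa using hw)
    split_ifs at h4 with h5
    · exact absurd h4 hn.ne
    · exact ⟨h5, by linarith⟩
  have all : ∀ x, f x = f m := by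
    intro x
    obtain ⟨p⟩ := hc.preconnected m x
    have : ∀ {a b : V} (_ : G.Walk a b), f a = f m → f b = f m := by
      intro a b p
      induction p with
      | nil => exact id
      | cons h _ ih => exact fun z => ih (step _ z _ h).2
    exact this p rfl
  obtain ⟨e, he⟩ := hB
  induction e using Sym2.ind with
  | _ a b => exact (step a (all a) b (by simpa using hE he)).1 he

theorem solve (hc : G.Connected) {B : Finset (Sym2 V)} (hB : B.Nonempty) (hE : B ⊆ G.edgeFinset)
    (g : V → ℝ) : ∃ f, ∀ v, kil G B f v = g v := by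
  let T : (V → ℝ) →ₗ[ℝ] (V → ℝ) :=
    { toFun := fun f v => kil G B f v
      map_add' := fun f g => by
        ext v
        simp only [kil, Pi.add_apply, sum_add_distrib]
        ring
      map_smul' := fun c f => by
        ext v
        simp only [kil, Pi.smul_apply, smul_eq_mul, RingHom.id_apply, ← mul_sum]
        ring }
  have inj : Function.Injective T := by
    rw [← LinearMap.ker_eq_bot, LinearMap.ker_eq_bot']
    intro f hf
    have h1 := minp hc hB hE f fun v => (congrFun hf v).ge
    have h2 := minp hc hB hE (-f) fun v => (congrFun (show T (-f) = 0 by simp [hf]) v).ge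
    ext x
    have := h2 x
    exact le_antisymm (by simpa using this) (h1 x)
  obtain ⟨f, hf⟩ := LinearMap.injective_iff_surjective.1 inj g
  exact ⟨f, fun v => congrFun hf v⟩

/-- the one step equations of the cover times -/
def IsCov (G : SimpleGraph V) [DecidableRel G.Adj] (c : Finset (Sym2 V) → V → ℝ)
    (B : Finset (Sym2 V)) : Prop :=
  ∀ v, G.degree v * c B v = G.degree v + ∑ w ∈ G.neighborFinset v, c (B.erase s(v, w)) w

theorem split_sum (B : Finset (Sym2 V)) (F : Finset (Sym2 V) → V → ℝ) (v : V) :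
    ∑ w ∈ G.neighborFinset v, F (B.erase s(v, w)) w = ∑ w ∈ fresh G v B, F B w +
      ∑ w ∈ (G.neighborFinset v).filter (fun w => s(v, w) ∈ B), F (B.erase s(v, w)) w := by
  rw [← sum_filter_add_sum_filter_not (G.neighborFinset v) (fun w => s(v, w) ∈ B), add_comm]
  congr 1
  exact sum_congr rfl fun w hw => by rw [erase_eq_of_notMem (mem_filter.1 hw).2]

theorem exists_cov (hc : G.Connected) (n : ℕ) : ∃ c : Finset (Sym2 V) → V → ℝ,
    (∀ v, c ∅ v = 0) ∧ ∀ B, B.Nonempty → B ⊆ G.edgeFinset → B.card ≤ n → IsCov G c B := by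
  induction n with
  | zero => exact ⟨fun _ _ => 0, fun _ => rfl, fun B h _ h2 => by have := h.card_pos; omega⟩
  | succ n ih =>
    obtain ⟨c, c0, hcc⟩ := ih
    choose! f hf using fun B (h1 : B.Nonempty) (h2 : B ⊆ G.edgeFinset) => solve hc h1 h2
      fun v => G.degree v +
        ∑ w ∈ (G.neighborFinset v).filter (fun w => s(v, w) ∈ B), c (B.erase s(v, w)) w
    refine ⟨fun B => if B.card = n + 1 then f B else c B, fun v => by simp [c0], ?_⟩
    intro B h1 h2 h3 v
    by_cases h4 : B.card = n + 1
    · rw [split_sum B (fun B => if B.card = n + 1 then f B else c B)]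
      have := hf B h1 h2 v
      rw [kil] at this
      simp only [if_pos h4]
      rw [sum_congr rfl (s₁ := (G.neighborFinset v).filter (fun w => s(v, w) ∈ B))
        (g := fun w => c (B.erase s(v, w)) w) fun w hw => by
          rw [if_neg (by rw [card_erase_of_mem (mem_filter.1 hw).2]; omega)]]
      linarith
    · simp only [if_neg h4]
      rw [hcc B h1 h2 (by omega) v]
      congr 1
      refine sum_congr rfl fun w _ => ?_
      rw [if_neg (by have := card_erase_le (s := B) (a := s(v, w)); omega)]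

theorem lap_sum (g : V → ℝ) : ∑ v, lap G g v = 0 := by
  have := green G (fun _ => 1) g
  simpa using this.symm

theorem lap_symm (f g : V → ℝ) : ∑ v, f v * lap G g v = ∑ v, g v * lap G f v := by
  have h1 := green G f g
  have h2 := green G g f
  simp only [mul_comm (g _ - g _)] at h2
  linarith

theorem deg_sum : ∑ v, (G.degree v : ℝ) = 2 * G.edgeFinset.card := by
  exact_mod_cast G.sum_degrees_eq_twice_card_edges

theorem hit_pair {a : V} {H : V → ℝ} (h : IsHit G {a} H) (f : V → ℝ) :
    ∑ v, f v * lap G H v = ∑ v, G.degree v * f v - 2 * G.edgeFinset.card * f a := by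
  have e : ∀ v, lap G H v = G.degree v + if v = a then lap G H a - G.degree a else 0 := by
    intro v
    split_ifs with hv
    · rw [hv]; ring
    · rw [h.2.1 v (by simpa using hv)]; ring
  have s0 := lap_sum (G := G) H
  rw [sum_congr rfl fun v _ => e v, sum_add_distrib, deg_sum, sum_ite_eq' univ a] at s0
  rw [sum_congr rfl fun v _ => by rw [e v, mul_add, mul_ite, mul_zero], sum_add_distrib,
    sum_ite_eq' univ a]
  simp only [mem_univ, if_true] at s0 ⊢
  rw [show lap G H a - G.degree a = -(2 * G.edgeFinset.card) by linarith]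
  simp only [mul_comm (f _)]
  ring

theorem hit_trans (ht : ∀ u v, ∃ φ : G ≃g G, φ u = v) {a b : V} {Ha Hb : V → ℝ}
    (ha : IsHit G {a} Ha) (hb : IsHit G {b} Hb) :
    ∑ v, (G.degree v : ℝ) * Ha v = ∑ v, (G.degree v : ℝ) * Hb v := by
  obtain ⟨φ, hφ⟩ := ht a b
  have hk : IsHit G {a} fun v => Hb (φ v) := by
    refine ⟨fun v hv => hb.1 _ (by rw [mem_singleton.1 hv, hφ]; simp), fun v hv => ?_,
      fun v => hb.2.2 _⟩
    rw [← φ.degree_eq v, ← hb.2.1 (φ v) (by
      rw [← hφ]; simpa using hv)]
    unfold lap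
    refine sum_bij (fun w _ => φ w) (fun w hw => by simpa [φ.map_adj_iff] using hw)
      (fun _ _ _ _ e => φ.injective e)
      (fun w hw => ⟨φ.symm w, ?_, by simp⟩) fun _ _ => rfl
    rw [SimpleGraph.mem_neighborFinset, ← φ.map_adj_iff]
    simpa using hw
  have e1 := hit_diff ha hk subset_rfl
  have e2 := hit_diff hk ha subset_rfl
  have e3 := energy_nonneg G fun v => Hb (φ v) - Ha v
  have e4 := energy_nonneg G fun v => Ha v - Hb (φ v)
  rw [← hit_energy ha, show energy G Ha = energy G fun v => Hb (φ v) by linarith, hit_energy hk]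
  exact Fintype.sum_equiv φ.toEquiv _ _ fun v => by rw [← φ.degree_eq v]; rfl

theorem edge_energy {a b : V} (hab : G.Adj a b) (k : V → ℝ) : (k a - k b) ^ 2 ≤ energy G k := by
  have h1 : ∀ x y, G.Adj x y → (k x - k y) ^ 2 ≤ ∑ w ∈ G.neighborFinset x, (k x - k w) ^ 2 :=
    fun x y h => single_le_sum (f := fun w => (k x - k w) ^ 2) (fun _ _ => sq_nonneg _)
      (by simpa using h)
  have h2 : ∑ v ∈ {a, b}, ∑ w ∈ G.neighborFinset v, (k v - k w) ^ 2 ≤
      ∑ v, ∑ w ∈ G.neighborFinset v, (k v - k w) ^ 2 :=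
    sum_le_sum_of_subset_of_nonneg (subset_univ _) fun _ _ _ => by positivity
  rw [sum_pair hab.ne] at h2
  have := h1 a b hab
  have := h1 b a hab.symm
  unfold energy
  nlinarith

theorem single_ge {ρ : ℝ} (hρ : ∀ (f : V → ℝ) x y, (f x - f y) ^ 2 ≤ ρ * energy G f)
    (hd : ∀ v, 0 < G.degree v) (ht : ∀ u v, ∃ φ : G ≃g G, φ u = v)
    {c : Finset (Sym2 V) → V → ℝ} (c0 : ∀ v, c ∅ v = 0) {a b : V} (hab : G.Adj a b)
    (h : IsCov G c {s(a, b)}) (v : V) : (G.edgeFinset.card : ℝ) ≤ c {s(a, b)} v := by
  set f := c {s(a, b)} with hf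
  set E : ℝ := (G.edgeFinset.card : ℝ) with hE
  have hE0 : 0 < E := by
    rw [hE]; exact_mod_cast card_pos.2 ⟨s(a, b), by simpa using hab⟩
  have hl : ∀ x, lap G f x = G.degree x - (if x = a then f b else 0) - if x = b then f a else 0 := by
    intro x
    have h1 := h x
    have h2 : ∑ w ∈ G.neighborFinset x, c (({s(a, b)} : Finset _).erase s(x, w)) w =
        ∑ w ∈ G.neighborFinset x, (f w - if s(x, w) = s(a, b) then f w else 0) := by
      refine sum_congr rfl fun w _ => ?_
      split_ifs with e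
      · rw [e, erase_singleton, c0, sub_self]
      · rw [erase_eq_of_notMem (by simpa using e), sub_zero]
    have h3 : ∑ w ∈ G.neighborFinset x, (if s(x, w) = s(a, b) then f w else 0) =
        (if x = a then f b else 0) + if x = b then f a else 0 := by
      by_cases e1 : x = a
      · subst e1
        simp [hab, hab.ne, Sym2.congr_right]
      · by_cases e2 : x = b
        · subst e2
          simp [hab.symm, e1]
        · simp [e1, e2]
    rw [h2, sum_sub_distrib, h3] at h1
    rw [lap, sum_sub_distrib, sum_const, nsmul_eq_mul, SimpleGraph.card_neighborFinset_eq_degree]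
    linarith
  have hg : ∀ g : V → ℝ, ∑ x, g x * lap G f x = ∑ x, G.degree x * g x - g a * f b - g b * f a := by
    intro g
    simp only [hl, mul_sub, sum_sub_distrib, mul_ite, mul_zero, sum_ite_eq', mem_univ, if_true,
      mul_comm (g _) (G.degree _ : ℝ)]
  obtain ⟨Ha, ha⟩ := exists_hit G hρ hd {a} (singleton_nonempty a)
  obtain ⟨Hb, hb⟩ := exists_hit G hρ hd {b} (singleton_nonempty b)
  have a0 : Ha a = 0 := ha.1 a (mem_singleton_self a)
  have b0 : Hb b = 0 := hb.1 b (mem_singleton_self b)
  have t := hit_trans ht ha hb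
  have s1 := lap_symm (G := G) Ha Hb
  rw [hit_pair ha, hit_pair hb, t, ← hE] at s1
  have hH : Ha b = Hb a := by nlinarith
  have s2 := lap_symm (G := G) f Ha
  have s3 := lap_symm (G := G) f Hb
  rw [hit_pair ha, hg, a0, ← hE] at s2
  rw [hit_pair hb, hg, b0, ← hE] at s3
  have s4 := hg fun _ => 1
  simp only [one_mul, mul_one, lap_sum, deg_sum, ← hE] at s4
  have s5 := edge_energy hab fun x => Ha x - Hb x
  have s6 : energy G (fun x => Ha x - Hb x) = 4 * E * Ha b := by
    rw [energy_eq]
    have : ∀ x, lap G (fun x => Ha x - Hb x) x = lap G Ha x - lap G Hb x := fun x => by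
      simp only [lap, ← sum_sub_distrib]
      exact sum_congr rfl fun w _ => by ring
    simp only [this, mul_sub (_ - _), sum_sub_distrib]
    rw [hit_pair ha, hit_pair hb, a0, b0, ← hE, ← hH]
    ring
  rw [s6, a0, b0, ← hH] at s5
  have s7 : Ha b ≤ E := by
    have := ha.2.2 b
    nlinarith
  have s8 : (f b - f a) * (2 * E - Ha b) = 0 := by rw [← hH] at s3; linarith
  have s9 : f b = f a := by
    rcases mul_eq_zero.1 s8 with z | z <;> linarith
  obtain ⟨m, -, hm⟩ := exists_min_image univ f ⟨v, mem_univ v⟩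
  refine le_trans ?_ (hm v (mem_univ v))
  by_cases e1 : m = a
  · rw [e1]; linarith
  by_cases e2 : m = b
  · rw [e2]; linarith
  have h3 : lap G f m ≤ 0 := sum_nonpos fun w _ => sub_nonpos.2 (hm w (mem_univ w))
  rw [hl, if_neg e1, if_neg e2] at h3
  have : (0 : ℝ) < G.degree m := by exact_mod_cast hd m
  linarith

theorem matthews (hc : G.Connected) {T : ℝ} {c : Finset (Sym2 V) → V → ℝ} (c0 : ∀ v, c ∅ v = 0)
    (h : ∀ B, B.Nonempty → B ⊆ G.edgeFinset → IsCov G c B)
    (h1 : ∀ e ∈ G.edgeFinset, ∀ v, T ≤ c {e} v) (n : ℕ) :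
    ∀ B, B ⊆ G.edgeFinset → B.card = n + 1 →
      (∀ v, T ≤ ∑ b ∈ B, (c B v - c (B.erase b) v)) ∧ ∀ v, T * harmonic (n + 1) ≤ c B v := by
  induction n with
  | zero =>
    intro B hB hn
    obtain ⟨e, rfl⟩ := card_eq_one.1 hn
    have := h1 e (hB (mem_singleton_self e))
    simp [c0, this]
  | succ n ih =>
    intro B hB hn
    have hne : B.Nonempty := card_pos.1 (by omega)
    have her : ∀ b ∈ B, (B.erase b).card = n + 1 := fun b hb => by
      rw [card_erase_of_mem hb]; omega
    have hsub : ∀ b, B.erase b ⊆ G.edgeFinset := fun b => (erase_subset _ _).trans hB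
    let F : Finset (Sym2 V) → V → ℝ := fun A v => ∑ b ∈ A, (c A v - c (A.erase b) v) - T
    have hF : ∀ v, 0 ≤ F B v := by
      refine minp hc hne hB (F B) fun v => ?_
      have e1 : G.degree v * F B v = ∑ w ∈ G.neighborFinset v, F (B.erase s(v, w)) w := by
        have e2 : ∀ w, F (B.erase s(v, w)) w =
            ∑ b ∈ B, (c (B.erase s(v, w)) w - c ((B.erase b).erase s(v, w)) w) - T := by
          intro w
          simp only [F]
          congr 1
          rw [sum_congr rfl fun b _ => by rw [erase_right_comm]]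
          refine sum_erase B (f := fun b => c (B.erase s(v, w)) w -
            c ((B.erase b).erase s(v, w)) w) ?_
          rw [erase_idem, sub_self]
        simp only [e2, sum_sub_distrib (f := fun w => ∑ b ∈ B, _), sum_const, nsmul_eq_mul,
          SimpleGraph.card_neighborFinset_eq_degree]
        rw [sum_comm]
        simp only [F, mul_sub, mul_sum]
        congr 1
        refine sum_congr rfl fun b hb => ?_
        rw [h B hne hB v, h (B.erase b) (card_pos.1 (by rw [her b hb]; omega)) (hsub b) v,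
          sum_sub_distrib]
        ring
      rw [kil, e1, split_sum B F, add_sub_cancel_left]
      exact sum_nonneg fun w hw => sub_nonneg.2 ((ih _ (hsub _) (her _ (mem_filter.1 hw).2)).1 w)
    refine ⟨fun v => sub_nonneg.1 (hF v), fun v => ?_⟩
    have e1 := sub_nonneg.1 (hF v)
    rw [sum_sub_distrib, sum_const, nsmul_eq_mul, hn] at e1
    have e2 := card_nsmul_le_sum B (fun b => c (B.erase b) v) _ fun b hb =>
      (ih _ (hsub b) (her b hb)).2 v
    rw [nsmul_eq_mul, hn] at e2
    rw [harmonic_succ (n + 1)]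
    push_cast at e1 e2 ⊢
    have hp : (0 : ℝ) < (n : ℝ) + 1 + 1 := by positivity
    refine le_of_mul_le_mul_left ?_ hp
    have : ((n : ℝ) + 1 + 1) * (T * ((harmonic (n + 1) : ℝ) + ((n : ℝ) + 1 + 1)⁻¹)) =
        ((n : ℝ) + 1 + 1) * (T * (harmonic (n + 1) : ℝ)) + T := by field_simp
    linarith

theorem sub_le (hd : ∀ v, 0 < G.degree v) {c : Finset (Sym2 V) → V → ℝ} (c0 : ∀ v, c ∅ v = 0)
    (h : ∀ B, B.Nonempty → B ⊆ G.edgeFinset → IsCov G c B) {K : ℝ} (hK : ∀ B v, c B v ≤ K)
    (T : ℕ) : ∀ v U, c (G.edgeFinset \ U) v ≤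
      ∑ t ∈ range T, surv G (fun u _ => G.neighborFinset u) t v U +
        K * surv G (fun u _ => G.neighborFinset u) T v U := by
  induction T with
  | zero =>
    intro v U
    by_cases hU : G.edgeFinset ⊆ U
    · simp [surv, hU, sdiff_eq_empty_iff_subset.2 hU, c0]
    · simpa [surv, hU] using hK _ v
  | succ T ih =>
    intro v U
    by_cases hU : G.edgeFinset ⊆ U
    · have z : ∀ t, surv G (fun u _ => G.neighborFinset u) t v U = 0 := fun t => by
        cases t <;> simp [surv, hU]
      simp [z, sdiff_eq_empty_iff_subset.2 hU, c0]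
    · have hp : (0 : ℝ) < G.degree v := by exact_mod_cast hd v
      have e := h _ (sdiff_nonempty.2 hU) sdiff_subset v
      rw [sum_range_succ']
      simp only [surv, if_neg hU, SimpleGraph.card_neighborFinset_eq_degree]
      rw [← sum_div, sum_comm]
      have h1 := sum_le_sum fun w (_ : w ∈ G.neighborFinset v) => ih w (insert s(v, w) U)
      simp only [sdiff_insert, sum_add_distrib, ← mul_sum] at h1
      refine le_of_mul_le_mul_left ?_ hp
      rw [e]
      field_simp
      linarith

theorem lower (hc : G.Connected) {ρ : ℝ}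
    (hρ : ∀ (f : V → ℝ) x y, (f x - f y) ^ 2 ≤ ρ * energy G f)
    (hd : ∀ v, 0 < G.degree v) (ht : ∀ u v, ∃ φ : G ≃g G, φ u = v) (v : V) :
    ENNReal.ofReal (G.edgeFinset.card * harmonic G.edgeFinset.card) ≤ simpleCover G v := by
  obtain ⟨c, c0, hcc⟩ := exists_cov hc G.edgeFinset.card
  have h : ∀ B, B.Nonempty → B ⊆ G.edgeFinset → IsCov G c B := fun B h1 h2 =>
    hcc B h1 h2 (card_le_card h2)
  have hE : 0 < G.edgeFinset.card := by
    obtain ⟨w, hw⟩ := (G.degree_pos_iff_exists_adj v).1 (hd v)
    exact card_pos.2 ⟨s(v, w), by simpa using hw⟩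
  obtain ⟨n, hn⟩ : ∃ n, G.edgeFinset.card = n + 1 := ⟨_, (Nat.succ_pred_eq_of_pos hE).symm⟩
  have m := (matthews hc (T := G.edgeFinset.card) c0 h (fun e he => by
    induction e using Sym2.ind with
    | _ a b =>
      exact single_ge hρ hd ht c0 (by simpa using he)
        (h _ (singleton_nonempty _) (singleton_subset_iff.2 he))) n _ subset_rfl hn).2 v
  rw [← hn] at m
  obtain ⟨K, hK⟩ := (Set.finite_range fun p : Finset (Sym2 V) × V => c p.1 p.2).bddAbove
  have hK' : ∀ B v, c B v ≤ K := fun B v => hK ⟨(B, v), rfl⟩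
  by_cases hs : Summable fun t => surv G (fun u _ => G.neighborFinset u) t v ∅
  · rw [simpleCover, ← ENNReal.ofReal_tsum_of_nonneg (fun t => surv_nonneg _ t v ∅) hs]
    refine ENNReal.ofReal_le_ofReal (m.trans ?_)
    have l1 := hs.hasSum.tendsto_sum_nat.add (hs.tendsto_atTop_zero.const_mul K)
    rw [mul_zero, add_zero] at l1
    exact ge_of_tendsto' l1 fun T => by simpa using sub_le hd c0 h hK' T v ∅
  · have : simpleCover G v = ⊤ := by
      by_contra hne
      refine hs ?_
      have := ENNReal.summable_toReal hne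
      simpa only [ENNReal.toReal_ofReal (surv_nonneg _ _ v ∅)] using this
    rw [this]
    exact le_top

end Pool.Agent.Lib.MP_7c147c_pr
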