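import Pool.Agent.Lib.MP_7c147c_pr.Defs

set_option linter.unusedSectionVars false

namespace Pool.Agent.Lib.MP_7c147c_pr

open Finset

variable {V : Type} [Fintype V] [DecidableEq V] (G : SimpleGraph V) [DecidableRel G.Adj]

/-- the Laplacian -/
noncomputable def lap (f : V → ℝ) (v : V) : ℝ := ∑ w ∈ G.neighborFinset v, (f v - f w)

theorem sum_swap (F : V → V → ℝ) :
    ∑ v, ∑ w ∈ G.neighborFinset v, F v w = ∑ v, ∑ w ∈ G.neighborFinset v, F w v := by
  have h : ∀ H : V → V → ℝ, ∑ v, ∑ w ∈ G.neighborFinset v, H v w =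
      ∑ v, ∑ w, if G.Adj v w then H v w else 0 := fun H => by
    refine sum_congr rfl fun v _ => ?_
    rw [← sum_filter]
    congr 1
    ext w
    simp
  rw [h, h, sum_comm]
  refine sum_congr rfl fun v _ => sum_congr rfl fun w _ => ?_
  simp only [G.adj_comm]

theorem green (f g : V → ℝ) :
    ∑ v, ∑ w ∈ G.neighborFinset v, (f v - f w) * (g v - g w) = 2 * ∑ v, f v * lap G g v := by
  have h1 : ∑ v, ∑ w ∈ G.neighborFinset v, (f v - f w) * (g v - g w) =
      ∑ v, ∑ w ∈ G.neighborFinset v, f v * (g v - g w) +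
        ∑ v, ∑ w ∈ G.neighborFinset v, f w * (g w - g v) := by
    rw [← sum_add_distrib]
    refine sum_congr rfl fun v _ => ?_
    rw [← sum_add_distrib]
    exact sum_congr rfl fun w _ => by ring
  rw [h1, sum_swap G fun v w => f w * (g w - g v), ← two_mul]
  simp only [lap, mul_sum]

theorem energy_eq (f : V → ℝ) : energy G f = ∑ v, f v * lap G f v := by
  have := green G f f
  simp only [← sq] at this
  rw [energy, this]
  ring

theorem energy_add (f g : V → ℝ) :
    energy G (fun v => f v + g v) = energy G f + energy G g + 2 * ∑ v, f v * lap G g v := by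
  rw [← green, energy, energy, energy]
  have : ∑ v, ∑ w ∈ G.neighborFinset v, (f v + g v - (f w + g w)) ^ 2 =
      ∑ v, ∑ w ∈ G.neighborFinset v, (f v - f w) ^ 2 +
        ∑ v, ∑ w ∈ G.neighborFinset v, (g v - g w) ^ 2 +
        2 * ∑ v, ∑ w ∈ G.neighborFinset v, (f v - f w) * (g v - g w) := by
    rw [mul_sum, ← sum_add_distrib, ← sum_add_distrib]
    refine sum_congr rfl fun v _ => ?_
    rw [mul_sum, ← sum_add_distrib, ← sum_add_distrib]
    exact sum_congr rfl fun w _ => by ring
  rw [this]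
  ring

theorem energy_nonneg (f : V → ℝ) : 0 ≤ energy G f := by
  unfold energy
  positivity

/-- hitting time function of `S` -/
def IsHit (S : Finset V) (h : V → ℝ) : Prop :=
  (∀ v ∈ S, h v = 0) ∧ (∀ v ∉ S, lap G h v = G.degree v) ∧ ∀ v, 0 ≤ h v

theorem exists_hit {ρ : ℝ} (hρ : ∀ (f : V → ℝ) x y, (f x - f y) ^ 2 ≤ ρ * energy G f)
    (hd : ∀ v, 0 < G.degree v) (S : Finset V) (hS : S.Nonempty) : ∃ h, IsHit G S h := by
  let T : (V → ℝ) →ₗ[ℝ] (V → ℝ) :=
    { toFun := fun f v => if v ∈ S then f v else lap G f v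
      map_add' := fun f g => by
        ext v
        by_cases hv : v ∈ S
        · simp [hv]
        · simp only [hv, if_false, lap, Pi.add_apply, ← sum_add_distrib]
          exact sum_congr rfl fun w _ => by ring
      map_smul' := fun c f => by
        ext v
        by_cases hv : v ∈ S
        · simp [hv]
        · simp only [hv, if_false, lap, Pi.smul_apply, smul_eq_mul, RingHom.id_apply, mul_sum]
          exact sum_congr rfl fun w _ => by ring }
  have hT : ∀ f v, T f v = if v ∈ S then f v else lap G f v := fun _ _ => rfl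
  have inj : Function.Injective T := by
    rw [← LinearMap.ker_eq_bot, LinearMap.ker_eq_bot']
    intro f hf
    have h0 : ∀ v, (if v ∈ S then f v else lap G f v) = 0 := fun v => by
      rw [← hT, hf]; rfl
    have he : energy G f = 0 := by
      rw [energy_eq]
      refine sum_eq_zero fun v _ => ?_
      have := h0 v
      by_cases hv : v ∈ S
      · rw [if_pos hv] at this; rw [this, zero_mul]
      · rw [if_neg hv] at this; rw [this, mul_zero]
    obtain ⟨s, hs⟩ := hS
    ext x
    have h1 := hρ f x s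
    have h2 := h0 s
    rw [if_pos hs] at h2
    rw [he, h2, mul_zero, sub_zero] at h1
    exact pow_eq_zero_iff (two_ne_zero) |>.1 (le_antisymm h1 (sq_nonneg _))
  obtain ⟨h, hh⟩ := LinearMap.injective_iff_surjective.1 inj
    (fun v => if v ∈ S then 0 else (G.degree v : ℝ))
  have h1 : ∀ v ∈ S, h v = 0 := fun v hv => by
    have := congrFun hh v
    rwa [hT, if_pos hv, if_pos hv] at this
  have h2 : ∀ v ∉ S, lap G h v = G.degree v := fun v hv => by
    have := congrFun hh v
    rwa [hT, if_neg hv, if_neg hv] at this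
  refine ⟨h, h1, h2, fun v => ?_⟩
  obtain ⟨m, -, hm⟩ := exists_min_image univ h ⟨v, mem_univ v⟩
  refine le_trans ?_ (hm v (mem_univ v))
  by_cases hv : m ∈ S
  · exact (h1 m hv).ge
  · have h3 : lap G h m ≤ 0 := sum_nonpos fun w _ => sub_nonpos.2 (hm w (mem_univ w))
    rw [h2 m hv] at h3
    have : (0 : ℝ) < G.degree m := by exact_mod_cast hd m
    linarith

variable {G}

theorem hit_energy {S : Finset V} {h : V → ℝ} (H : IsHit G S h) :
    energy G h = ∑ v, (G.degree v : ℝ) * h v := by
  rw [energy_eq]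
  refine sum_congr rfl fun v _ => ?_
  by_cases hv : v ∈ S
  · rw [H.1 v hv]; ring
  · rw [H.2.1 v hv]; ring

theorem hit_diff {S S' : Finset V} {h h' : V → ℝ} (H : IsHit G S h) (H' : IsHit G S' h')
    (hs : S' ⊆ S) : energy G h' = energy G h + energy G (fun v => h' v - h v) := by
  have e := energy_add G h (fun v => h' v - h v)
  have z : ∑ v, h v * lap G (fun v => h' v - h v) v = 0 := by
    refine sum_eq_zero fun v _ => ?_
    by_cases hv : v ∈ S
    · rw [H.1 v hv, zero_mul]
    · have : lap G (fun v => h' v - h v) v = lap G h' v - lap G h v := by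
        simp only [lap, ← sum_sub_distrib]
        exact sum_congr rfl fun w _ => by ring
      rw [this, H.2.1 v hv, H'.2.1 v fun x => hv (hs x), sub_self, mul_zero]
  simp only [add_sub_cancel] at e
  rw [z] at e
  simpa using e

theorem hit_bound {τ : ℝ} {δ : ℕ} (hd : ∀ v, δ ≤ G.degree v) (hE : 0 < G.edgeFinset.card)
    (hτ0 : 0 < τ)
    (hτ : ∀ f : V → ℝ, ∑ v, (G.degree v : ℝ) * f v = 0 →
      ∑ v, (G.degree v : ℝ) * f v ^ 2 ≤ τ * energy G f)
    {S : Finset V} {h : V → ℝ} (H : IsHit G S h) :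
    δ * (S.card * energy G h) ≤ (2 * G.edgeFinset.card) ^ 2 * τ := by
  set M : ℝ := 2 * G.edgeFinset.card with hM
  have hM0 : 0 < M := by rw [hM]; positivity
  have hdeg : ∑ v, (G.degree v : ℝ) = M := by
    rw [hM]; exact_mod_cast G.sum_degrees_eq_twice_card_edges
  set F := energy G h with hF
  have hF0 : 0 ≤ F := energy_nonneg G h
  have h1 := hτ (fun v => h v - F / M) (by
    simp only [mul_sub, sum_sub_distrib, ← sum_mul, hdeg, ← hit_energy H]
    field_simp
    ring)
  have h2 : energy G (fun v => h v - F / M) = F := by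
    rw [hF]; unfold energy; simp
  have h3 : δ * (S.card * (F / M) ^ 2) ≤ ∑ v, (G.degree v : ℝ) * (h v - F / M) ^ 2 := by
    refine le_trans ?_ (sum_le_sum_of_subset_of_nonneg (subset_univ S) fun v _ _ => by positivity)
    have : (δ : ℝ) * (S.card * (F / M) ^ 2) = ∑ v ∈ S, (δ : ℝ) * (F / M) ^ 2 := by
      rw [sum_const, nsmul_eq_mul]; ring
    rw [this]
    refine sum_le_sum fun v hv => ?_
    rw [H.1 v hv, zero_sub, neg_sq]
    exact mul_le_mul_of_nonneg_right (by exact_mod_cast hd v) (sq_nonneg _)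
  rw [h2] at h1
  rcases hF0.eq_or_lt with z | z
  · rw [← z]; simp only [mul_zero]; positivity
  · have h4 : δ * (S.card * (F / M) ^ 2) ≤ τ * F := h3.trans h1
    have h5 : δ * (S.card * (F / M) ^ 2) = δ * (S.card * F) * F / M ^ 2 := by field_simp
    rw [h5, div_le_iff₀ (by positivity)] at h4
    nlinarith

theorem harm_step {m m' : ℕ} (h : m' ≤ m) :
    ((m : ℝ) - m') / m ≤ (harmonic m : ℝ) - harmonic m' := by
  induction m, h using Nat.le_induction with
  | base => simp
  | succ m hm ih =>
    rw [harmonic_succ]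
    push_cast
    have h1 : ((m : ℝ) - m') / (m + 1) ≤ ((m : ℝ) - m') / m := by
      rcases Nat.eq_zero_or_pos m with z | z
      · subst z
        have : m' = 0 := by omega
        simp [this]
      · have : (0 : ℝ) < m := by exact_mod_cast z
        have : (m' : ℝ) ≤ m := by exact_mod_cast hm
        gcongr
        linarith
    have h2 : ((m : ℝ) + 1 - m') / (m + 1) = ((m : ℝ) - m') / (m + 1) + ((m : ℝ) + 1)⁻¹ := by
      field_simp
      ring
    linarith

theorem harm_step2 {m m' : ℕ} (h0 : 0 < m') (h : m' < m) :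
    1 / (2 * (m' : ℝ)) ≤ (harmonic m : ℝ) - harmonic m' := by
  refine le_trans ?_ ?_ (b := (harmonic (m' + 1) : ℝ) - harmonic m')
  · rw [harmonic_succ]
    push_cast
    have : (1 : ℝ) ≤ m' := by exact_mod_cast h0
    rw [add_sub_cancel_left, one_div]
    exact inv_anti₀ (by linarith) (by linarith)
  · have := harm_step (m := m) (m' := m' + 1) h
    have h2 : (0 : ℝ) ≤ ((m : ℝ) - (m' + 1 : ℕ)) / m := by
      have : ((m' + 1 : ℕ) : ℝ) ≤ m := by exact_mod_cast h
      exact div_nonneg (by linarith) (by positivity)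
    linarith

theorem pot_step {κ ρ F F' x : ℝ} {m m' : ℕ} (hκ : 0 < κ) (hρ : 0 < ρ) (h0 : 0 < m') (h : m' < m)
    (hF : 0 ≤ F) (hb : ρ * (m * F) ≤ κ ^ 2) (hx : x ^ 2 ≤ ρ * (F' - F)) :
    x + (2 * κ * harmonic m' - ρ * (m' * F') / (2 * κ)) ≤
      2 * κ * harmonic m - ρ * (m * F) / (2 * κ) := by
  have a1 := harm_step h.le
  have a2 := harm_step2 h0 h
  have hm' : (0 : ℝ) < m' := by exact_mod_cast h0
  have hm : (m' : ℝ) < m := by exact_mod_cast h
  set D : ℝ := (harmonic m : ℝ) - harmonic m' with hD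
  have b1 : ρ * (((m : ℝ) - m') * F) / (2 * κ) ≤ κ / 2 * D := by
    have : ρ * (((m : ℝ) - m') * F) / (2 * κ) = ρ * (m * F) / (2 * κ) * (((m : ℝ) - m') / m) := by
      have : (m : ℝ) ≠ 0 := by linarith
      field_simp
    rw [this]
    refine mul_le_mul ?_ a1 (div_nonneg (by linarith) (by linarith)) (by positivity)
    rw [div_le_iff₀ (by positivity)]
    nlinarith
  have b2 : x ≤ κ / (2 * m') + m' * x ^ 2 / (2 * κ) := by
    have : κ / (2 * m') + m' * x ^ 2 / (2 * κ) - x = (κ - m' * x) ^ 2 / (2 * m' * κ) := by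
      field_simp
      ring
    have h2 : 0 ≤ (κ - m' * x) ^ 2 / (2 * m' * κ) := by positivity
    linarith
  have b3 : m' * x ^ 2 / (2 * κ) ≤ ρ * (m' * (F' - F)) / (2 * κ) := by
    refine div_le_div_of_nonneg_right ?_ (by positivity)
    nlinarith
  have b4 : κ / (2 * m') ≤ κ * D := by
    have : κ / (2 * m') = κ * (1 / (2 * m')) := by ring
    rw [this]
    gcongr
  have b5 : 0 ≤ κ * D := le_trans (by positivity) b4
  have e : ρ * (m * F) / (2 * κ) - ρ * (m' * F') / (2 * κ) =
      ρ * (((m : ℝ) - m') * F) / (2 * κ) - ρ * (m' * (F' - F)) / (2 * κ) := by ring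
  have e2 : 2 * κ * (harmonic m : ℝ) - 2 * κ * harmonic m' = 2 * (κ * D) := by rw [hD]; ring
  nlinarith

theorem lyap (Φ : V → Finset (Sym2 V) → ℝ) (hm : ∀ v U, (moves G v U).Nonempty)
    (h0 : ∀ v U, 0 ≤ Φ v U)
    (hs : ∀ v U, ¬ G.edgeFinset ⊆ U →
      ∑ w ∈ moves G v U, Φ w (insert s(v, w) U) ≤ (moves G v U).card * (Φ v U - 1)) (T : ℕ) :
    ∀ v U, ∑ t ∈ range T, surv G (moves G) t v U ≤ Φ v U := by
  induction T with
  | zero => intro v U; simpa using h0 v U
  | succ T ih =>
    intro v U
    by_cases hU : G.edgeFinset ⊆ U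
    · refine le_trans (le_of_eq (sum_eq_zero fun t _ => ?_)) (h0 v U)
      cases t <;> simp [surv, hU]
    · rw [sum_range_succ']
      have hc : (0 : ℝ) < (moves G v U).card := by exact_mod_cast (hm v U).card_pos
      simp only [surv, if_neg hU]
      rw [← sum_div, sum_comm]
      have h1 : ∑ w ∈ moves G v U, ∑ t ∈ range T, surv G (moves G) t w (insert s(v, w) U) ≤
          (moves G v U).card * (Φ v U - 1) := (sum_le_sum fun w _ => ih w _).trans (hs v U hU)
      rw [← div_le_iff₀' hc] at h1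
      linarith

theorem surv_nonneg (mv : V → Finset (Sym2 V) → Finset V) (t : ℕ) :
    ∀ v U, 0 ≤ surv G mv t v U := by
  induction t with
  | zero => intro v U; simp only [surv]; split_ifs <;> norm_num
  | succ t ih =>
    intro v U
    simp only [surv]
    split_ifs
    · exact le_rfl
    · exact div_nonneg (sum_nonneg fun w _ => ih _ _) (by positivity)

theorem main {ρ τ : ℝ} {δ : ℕ} (hδ : 0 < δ) (hρ0 : 0 < ρ) (hτ0 : 0 < τ)
    (hd : ∀ v, δ ≤ G.degree v)
    (hρ : ∀ (f : V → ℝ) x y, (f x - f y) ^ 2 ≤ ρ * energy G f)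
    (hτ : ∀ f : V → ℝ, ∑ v, (G.degree v : ℝ) * f v = 0 →
      ∑ v, (G.degree v : ℝ) * f v ^ 2 ≤ τ * energy G f) (v0 : V) :
    greedyCover G v0 ≤ ENNReal.ofReal (G.edgeFinset.card *
      (1 + (5 + 4 * Real.log (Fintype.card V)) * √(ρ * τ / δ))) := by
  have hd0 : ∀ v, 0 < G.degree v := fun v => hδ.trans_le (hd v)
  have hE : 0 < G.edgeFinset.card := by
    obtain ⟨w, hw⟩ := (G.degree_pos_iff_exists_adj v0).1 (hd0 v0)
    exact card_pos.2 ⟨s(v0, w), by simpa using hw⟩
  have hδ' : (0 : ℝ) < δ := by exact_mod_cast hδ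
  have hE' : (0 : ℝ) < G.edgeFinset.card := by exact_mod_cast hE
  set κ : ℝ := 2 * G.edgeFinset.card * √(ρ * τ / δ) with hκ
  have hκ0 : 0 < κ := by rw [hκ]; positivity
  have hκ2 : κ ^ 2 = ρ * ((2 * G.edgeFinset.card) ^ 2 * τ) / δ := by
    rw [hκ, mul_pow, Real.sq_sqrt (by positivity)]; ring
  choose! h hh using exists_hit G hρ hd0
  have hb : ∀ S : Finset V, S.Nonempty → ρ * (S.card * energy G (h S)) ≤ κ ^ 2 := fun S hS => by
    have := hit_bound hd hE hτ0 hτ (hh S hS)
    rw [hκ2, le_div_iff₀ hδ']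
    nlinarith
  let B : Finset V → ℝ := fun S =>
    2 * κ * harmonic S.card - ρ * (S.card * energy G (h S)) / (2 * κ) + κ / 2
  have hB0 : ∀ S : Finset V, S.Nonempty → 0 ≤ B S := fun S hS => by
    have h1 : ρ * (S.card * energy G (h S)) / (2 * κ) ≤ κ / 2 := by
      rw [div_le_iff₀ (by positivity)]
      have := hb S hS
      nlinarith
    have h2 : (0 : ℝ) ≤ harmonic S.card := by
      have := harm_step (Nat.zero_le S.card)
      have h3 : (0 : ℝ) ≤ ((S.card : ℝ) - (0 : ℕ)) / S.card := by
        simp only [Nat.cast_zero, sub_zero]; positivity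
      simp only [harmonic_zero, Rat.cast_zero, sub_zero] at this
      linarith
    have h3 : 0 ≤ 2 * κ * harmonic S.card := by positivity
    simp only [B]
    linarith
  have hB : ∀ S S' : Finset V, S'.Nonempty → S' ⊆ S → ∀ w ∈ S, h S' w + B S' ≤ B S := by
    intro S S' hS' hs w hw
    have hS : S.Nonempty := hS'.mono hs
    rcases hs.eq_or_ssubset with e | e
    · rw [e, (hh S hS).1 w hw, zero_add]
    · obtain ⟨s, hs1⟩ := id hS'
      have h1 := hρ (fun v => h S' v - h S v) w s
      simp only [(hh S hS).1 w hw, (hh S hS).1 s (hs hs1), (hh S' hS').1 s hs1, sub_zero] at h1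
      have h2 := hit_diff (hh S hS) (hh S' hS') hs
      have := pot_step (F := energy G (h S)) (F' := energy G (h S')) (x := h S' w) hκ0 hρ0
        hS'.card_pos (card_lt_card e) (energy_nonneg G _) (hb S hS) (by rw [h2]; simpa using h1)
      simp only [B]
      linarith
  let Sf : Finset (Sym2 V) → Finset V := fun U => univ.filter fun v => (fresh G v U).Nonempty
  have hSf : ∀ U, ¬ G.edgeFinset ⊆ U → (Sf U).Nonempty := by
    intro U hU
    obtain ⟨e, he, heU⟩ := not_subset.1 hU
    induction e using Sym2.ind with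
    | _ a b =>
      exact ⟨a, mem_filter.2 ⟨mem_univ a, b, mem_filter.2 ⟨by simpa using he, heU⟩⟩⟩
  let Φ : V → Finset (Sym2 V) → ℝ := fun v U =>
    if G.edgeFinset ⊆ U then 0 else (G.edgeFinset \ U).card + h (Sf U) v + B (Sf U)
  have key := lyap (G := G) Φ (fun v U => by
      unfold moves
      split_ifs with hf
      · exact hf
      · exact card_pos.1 (hd0 v)) (fun v U => by
      by_cases hU : G.edgeFinset ⊆ U
      · simp only [Φ, if_pos hU, le_refl]
      · simp only [Φ, if_neg hU]
        have := (hh _ (hSf U hU)).2.2 v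
        have := hB0 _ (hSf U hU)
        positivity) (by
      intro v U hU
      have hS := hSf U hU
      by_cases hf : (fresh G v U).Nonempty
      · simp only [moves, if_pos hf]
        rw [← nsmul_eq_mul]
        refine sum_le_card_nsmul _ _ _ fun w hw => ?_
        obtain ⟨hw1, hw2⟩ := mem_filter.1 hw
        have adj : G.Adj v w := by simpa using hw1
        have hv : h (Sf U) v = 0 := (hh _ hS).1 v (mem_filter.2 ⟨mem_univ v, hf⟩)
        have hc : ((G.edgeFinset \ insert s(v, w) U).card : ℝ) + 1 = (G.edgeFinset \ U).card := by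
          rw [sdiff_insert]
          exact_mod_cast card_erase_add_one (mem_sdiff.2 ⟨by simpa using adj, hw2⟩)
        by_cases hU' : G.edgeFinset ⊆ insert s(v, w) U
        · simp only [Φ, if_pos hU', if_neg hU]
          have := hB0 _ hS
          have : (0 : ℝ) ≤ (G.edgeFinset \ insert s(v, w) U).card := by positivity
          linarith
        · simp only [Φ, if_neg hU', if_neg hU]
          have := hB (Sf U) (Sf (insert s(v, w) U)) (hSf _ hU') (fun x hx => by
            obtain ⟨y, hy⟩ := (mem_filter.1 hx).2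
            obtain ⟨y1, y2⟩ := mem_filter.1 hy
            exact mem_filter.2 ⟨mem_univ x, y, mem_filter.2 ⟨y1, fun z => y2 (mem_insert_of_mem z)⟩⟩)
            w (mem_filter.2 ⟨mem_univ w, v, mem_filter.2 ⟨by simpa using adj.symm,
              by rwa [Sym2.eq_swap]⟩⟩)
          linarith
      · simp only [moves, if_neg hf]
        have hin : ∀ w ∈ G.neighborFinset v, insert s(v, w) U = U := fun w hw => by
          refine insert_eq_of_mem ?_
          by_contra z
          exact hf ⟨w, mem_filter.2 ⟨hw, z⟩⟩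
        rw [sum_congr rfl fun w hw => by rw [hin w hw]]
        have hl := (hh _ hS).2.1 v fun z => hf (mem_filter.1 z).2
        simp only [Φ, if_neg hU]
        rw [lap, sum_sub_distrib, sum_const, nsmul_eq_mul,
          ← SimpleGraph.card_neighborFinset_eq_degree] at hl
        rw [sum_add_distrib, sum_add_distrib, sum_const, sum_const, nsmul_eq_mul, nsmul_eq_mul]
        nlinarith)
  have hU : ¬ G.edgeFinset ⊆ ∅ := fun z => by
    rw [subset_empty.1 z] at hE; simp at hE
  have hall : Sf ∅ = univ := by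
    ext v
    obtain ⟨w, hw⟩ := (G.degree_pos_iff_exists_adj v).1 (hd0 v)
    simp only [Sf, mem_filter, mem_univ, true_and, iff_true]
    exact ⟨w, mem_filter.2 ⟨by simpa using hw, by simp⟩⟩
  have hfin : Φ v0 ∅ ≤ G.edgeFinset.card *
      (1 + (5 + 4 * Real.log (Fintype.card V)) * √(ρ * τ / δ)) := by
    simp only [Φ, if_neg hU, hall, sdiff_empty, B, card_univ]
    rw [(hh univ ⟨v0, mem_univ v0⟩).1 v0 (mem_univ v0)]
    have h1 := harmonic_le_one_add_log (Fintype.card V)
    have h2 : 0 ≤ ρ * (Fintype.card V * energy G (h univ)) / (2 * κ) := by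
      have := energy_nonneg G (h univ)
      positivity
    have h3 : 2 * κ * (harmonic (Fintype.card V) : ℝ) ≤ 2 * κ * (1 + Real.log (Fintype.card V)) := by
      gcongr
    have h4 : G.edgeFinset.card * (1 + (5 + 4 * Real.log (Fintype.card V)) * √(ρ * τ / δ)) =
        G.edgeFinset.card + (2 * κ * (1 + Real.log (Fintype.card V)) + κ / 2) := by
      rw [hκ]; ring
    linarith
  unfold greedyCover
  refine ENNReal.tsum_le_of_sum_range_le fun T => ?_
  rw [← ENNReal.ofReal_sum_of_nonneg fun t _ => surv_nonneg _ t v0 ∅]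
  exact ENNReal.ofReal_le_ofReal ((key T v0 ∅).trans hfin)

end Pool.Agent.Lib.MP_7c147c_pr
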