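import Pool.Agent.Lib.MP_7c147c_pr.Lower

/-! The greedy walk: a general potential lemma and the hitting time profile bound. -/

set_option linter.unusedSectionVars false

namespace Pool.Agent.Lib.MP_7c147c_pr

open Finset

variable {V : Type} [Fintype V] [DecidableEq V] {G : SimpleGraph V} [DecidableRel G.Adj]

theorem core (hd0 : ∀ v, 0 < G.degree v) (Ψ : V → Finset (Sym2 V) → ℝ)
    (h0 : ∀ v U, ¬ G.edgeFinset ⊆ U → 0 ≤ Ψ v U)
    (hb : ∀ v U w, w ∈ fresh G v U → ¬ G.edgeFinset ⊆ insert s(v, w) U →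
      Ψ w (insert s(v, w) U) ≤ Ψ v U)
    (hr : ∀ v U, ¬ G.edgeFinset ⊆ U → ¬ (fresh G v U).Nonempty →
      (G.degree v : ℝ) ≤ lap G (fun x => Ψ x U) v) (v0 : V) :
    greedyCover G v0 ≤ ENNReal.ofReal (G.edgeFinset.card + Ψ v0 ∅) := by
  have hE : 0 < G.edgeFinset.card := by
    obtain ⟨w, hw⟩ := (G.degree_pos_iff_exists_adj v0).1 (hd0 v0)
    exact card_pos.2 ⟨s(v0, w), by simpa using hw⟩
  let Φ : V → Finset (Sym2 V) → ℝ := fun v U =>
    if G.edgeFinset ⊆ U then 0 else (G.edgeFinset \ U).card + Ψ v U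
  have key := lyap (G := G) Φ (fun v U => by
      unfold moves
      split_ifs with hf
      · exact hf
      · exact card_pos.1 (hd0 v)) (fun v U => by
      by_cases hU : G.edgeFinset ⊆ U
      · simp only [Φ, if_pos hU, le_refl]
      · simp only [Φ, if_neg hU]
        have := h0 v U hU
        positivity) (by
      intro v U hU
      by_cases hf : (fresh G v U).Nonempty
      · simp only [moves, if_pos hf]
        rw [← nsmul_eq_mul]
        refine sum_le_card_nsmul _ _ _ fun w hw => ?_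
        obtain ⟨hw1, hw2⟩ := mem_filter.1 hw
        have adj : G.Adj v w := by simpa using hw1
        have hc : ((G.edgeFinset \ insert s(v, w) U).card : ℝ) + 1 = (G.edgeFinset \ U).card := by
          rw [sdiff_insert]
          exact_mod_cast card_erase_add_one (mem_sdiff.2 ⟨by simpa using adj, hw2⟩)
        by_cases hU' : G.edgeFinset ⊆ insert s(v, w) U
        · simp only [Φ, if_pos hU', if_neg hU]
          have := h0 v U hU
          have : (0 : ℝ) ≤ (G.edgeFinset \ insert s(v, w) U).card := by positivity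
          linarith
        · simp only [Φ, if_neg hU', if_neg hU]
          have := hb v U w hw hU'
          linarith
      · simp only [moves, if_neg hf]
        have hin : ∀ w ∈ G.neighborFinset v, insert s(v, w) U = U := fun w hw => by
          refine insert_eq_of_mem ?_
          by_contra z
          exact hf ⟨w, mem_filter.2 ⟨hw, z⟩⟩
        rw [sum_congr rfl fun w hw => by rw [hin w hw]]
        have hl := hr v U hU hf
        simp only [Φ, if_neg hU]
        rw [lap, sum_sub_distrib, sum_const, nsmul_eq_mul,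
          ← SimpleGraph.card_neighborFinset_eq_degree] at hl
        rw [sum_add_distrib, sum_const, nsmul_eq_mul]
        nlinarith)
  have hU : ¬ G.edgeFinset ⊆ ∅ := fun z => by
    rw [subset_empty.1 z] at hE; simp at hE
  have hfin : Φ v0 ∅ = G.edgeFinset.card + Ψ v0 ∅ := by
    simp only [Φ, if_neg hU, sdiff_empty]
  unfold greedyCover
  refine ENNReal.tsum_le_of_sum_range_le fun T => ?_
  rw [← ENNReal.ofReal_sum_of_nonneg fun t _ => surv_nonneg _ t v0 ∅]
  exact ENNReal.ofReal_le_ofReal ((key T v0 ∅).trans hfin.le)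

/-- the unfinished vertices -/
def unf (G : SimpleGraph V) [DecidableRel G.Adj] (U : Finset (Sym2 V)) : Finset V :=
  univ.filter fun v => (fresh G v U).Nonempty

theorem mem_unf {U : Finset (Sym2 V)} {v : V} : v ∈ unf G U ↔ (fresh G v U).Nonempty := by
  simp [unf]

theorem unf_nonempty {U : Finset (Sym2 V)} (hU : ¬ G.edgeFinset ⊆ U) : (unf G U).Nonempty := by
  obtain ⟨e, he, heU⟩ := not_subset.1 hU
  induction e using Sym2.ind with
  | _ a b => exact ⟨a, mem_unf.2 ⟨b, mem_filter.2 ⟨by simpa using he, heU⟩⟩⟩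

theorem unf_anti (e : Sym2 V) (U : Finset (Sym2 V)) : unf G (insert e U) ⊆ unf G U := by
  intro x hx
  obtain ⟨y, hy⟩ := mem_unf.1 hx
  obtain ⟨y1, y2⟩ := mem_filter.1 hy
  exact mem_unf.2 ⟨y, mem_filter.2 ⟨y1, fun z => y2 (mem_insert_of_mem z)⟩⟩

theorem unf_of_fresh {U : Finset (Sym2 V)} {v w : V} (hw : w ∈ fresh G v U) : w ∈ unf G U := by
  obtain ⟨hw1, hw2⟩ := mem_filter.1 hw
  have adj : G.Adj v w := by simpa using hw1
  exact mem_unf.2 ⟨v, mem_filter.2 ⟨by simpa using adj.symm, by rwa [Sym2.eq_swap]⟩⟩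

theorem unf_empty (hd0 : ∀ v, 0 < G.degree v) : unf G ∅ = univ := by
  ext v
  obtain ⟨w, hw⟩ := (G.degree_pos_iff_exists_adj v).1 (hd0 v)
  simp only [mem_univ, iff_true]
  exact mem_unf.2 ⟨w, mem_filter.2 ⟨by simpa using hw, by simp⟩⟩

theorem root_step {a b x k : ℝ} (hk : 0 < k) (ha : 0 ≤ a) (hab : a ≤ b)
    (hx : x ^ 2 ≤ b ^ 2 - a ^ 2) : x ≤ b / k / 2 + k * (b - a) := by
  have hb : 0 ≤ b := ha.trans hab
  have h1 : 0 ≤ k * (b - a) := mul_nonneg hk.le (by linarith)
  have h2 : b / k * (k * (b - a)) = b * (b - a) := by field_simp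
  refine (abs_le_of_sq_le_sq' ?_ (by positivity)).2
  nlinarith [sq_nonneg (b / k / 2 - k * (b - a)), sq_nonneg (b - a)]

theorem root_mono {a : ℝ} (ha : 0 ≤ a) {ψ : ℕ → ℝ} {m' m : ℕ} (h : m' ≤ m)
    (hψ : ∀ j < m, a / √((j : ℝ) + 1) ≤ ψ j) :
    ∑ j ∈ range m', ψ j - √(m' : ℝ) * a ≤ ∑ j ∈ range m, ψ j - √(m : ℝ) * a := by
  induction m, h using Nat.le_induction with
  | base => exact le_rfl
  | succ m hm ih =>
    have h1 := ih fun j hj => hψ j (by omega)
    have h2 := hψ m (by omega)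
    rw [sum_range_succ]
    push_cast
    have p0 : 0 < √((m : ℝ) + 1) := by positivity
    have p1 : √((m : ℝ) + 1) ^ 2 = m + 1 := Real.sq_sqrt (by positivity)
    have p2 : √(m : ℝ) ^ 2 = m := Real.sq_sqrt (by positivity)
    have p3 : √(m : ℝ) ≤ √((m : ℝ) + 1) := Real.sqrt_le_sqrt (by linarith)
    have p4 : 0 ≤ √(m : ℝ) := Real.sqrt_nonneg _
    have p5 : (√((m : ℝ) + 1) - √(m : ℝ)) * a ≤ a / √((m : ℝ) + 1) := by
      rw [le_div_iff₀ p0]
      have : (√((m : ℝ) + 1) - √(m : ℝ)) * √((m : ℝ) + 1) ≤ 1 := by nlinarith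
      nlinarith
    linarith

/-- The profile bound. -/
theorem profile {ρ : ℝ} (hρ0 : 0 ≤ ρ) (hd0 : ∀ v, 0 < G.degree v)
    (hρ : ∀ (f : V → ℝ) x y, (f x - f y) ^ 2 ≤ ρ * energy G f) (Φ : ℕ → ℝ)
    (hΦ : ∀ S h, S.Nonempty → IsHit G S h → energy G h ≤ Φ S.card) (v0 : V) :
    greedyCover G v0 ≤ ENNReal.ofReal (G.edgeFinset.card +
      3 / 2 * ∑ j ∈ range (Fintype.card V), √(ρ * Φ (j + 1)) / √((j : ℝ) + 1)) := by
  choose! h hh using exists_hit G hρ hd0
  set ψ : ℕ → ℝ := fun j => √(ρ * Φ (j + 1)) / √((j : ℝ) + 1) with hψ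
  have ψ0 : ∀ j, 0 ≤ ψ j := fun j => by simp only [hψ]; positivity
  let a : Finset V → ℝ := fun S => √(ρ * energy G (h S))
  have a0 : ∀ S, 0 ≤ a S := fun S => Real.sqrt_nonneg _
  have a2 : ∀ S, a S ^ 2 = ρ * energy G (h S) := fun S =>
    Real.sq_sqrt (mul_nonneg hρ0 (energy_nonneg G _))
  have hm : ∀ S S' : Finset V, S'.Nonempty → S' ⊆ S → energy G (h S) ≤ energy G (h S') := by
    intro S S' hS' hs
    have := hit_diff (hh S (hS'.mono hs)) (hh S' hS') hs
    have := energy_nonneg G fun v => h S' v - h S v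
    linarith
  have ha : ∀ S : Finset V, ∀ j < S.card, a S / √((j : ℝ) + 1) ≤ ψ j := by
    intro S j hj
    obtain ⟨S', hs, hc⟩ := exists_subset_card_eq (s := S) (n := j + 1) hj
    have hS' : S'.Nonempty := card_pos.1 (by omega)
    have h1 := hΦ S' _ hS' (hh S' hS')
    rw [hc] at h1
    exact div_le_div_of_nonneg_right (Real.sqrt_le_sqrt
      (mul_le_mul_of_nonneg_left ((hm S S' hS' hs).trans h1) hρ0)) (Real.sqrt_nonneg _)
  let B : Finset V → ℝ := fun S =>
    (∑ j ∈ range (S.card - 1), ψ j) / 2 + (∑ j ∈ range S.card, ψ j - √(S.card : ℝ) * a S)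
  have hB0 : ∀ S : Finset V, 0 ≤ B S := fun S => by
    have h1 := root_mono (a0 S) (Nat.zero_le S.card) (ha S)
    have h2 : 0 ≤ ∑ j ∈ range (S.card - 1), ψ j := sum_nonneg fun j _ => ψ0 j
    simp only [range_zero, sum_empty, Nat.cast_zero, Real.sqrt_zero, zero_mul, sub_zero] at h1
    simp only [B]
    linarith
  have hB : ∀ S S' : Finset V, S'.Nonempty → S' ⊆ S → ∀ w ∈ S, h S' w + B S' ≤ B S := by
    intro S S' hS' hs w hw
    have hS : S.Nonempty := hS'.mono hs
    rcases hs.eq_or_ssubset with e | e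
    · rw [e, (hh S hS).1 w hw, zero_add]
    · obtain ⟨s, hs1⟩ := id hS'
      have h1 := hρ (fun v => h S' v - h S v) w s
      simp only [(hh S hS).1 w hw, (hh S hS).1 s (hs hs1), (hh S' hS').1 s hs1, sub_zero] at h1
      have h2 := hit_diff (hh S hS) (hh S' hS') hs
      have c0 := hS'.card_pos
      have c1 := card_lt_card e
      obtain ⟨m, hm'⟩ : ∃ m, S'.card = m + 1 := ⟨S'.card - 1, by omega⟩
      have k0 : 0 < √(S'.card : ℝ) := by positivity
      have h3 := root_step (x := h S' w) k0 (a0 S) (Real.sqrt_le_sqrt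
        (mul_le_mul_of_nonneg_left (hm S S' hS' hs) hρ0) : a S ≤ a S') (by
          rw [a2, a2, h2]; linarith)
      have h4 := root_mono (a0 S) c1.le (ha S)
      have h5 := ha S' m (by omega)
      have h6 : ∑ j ∈ range (m + 1), ψ j ≤ ∑ j ∈ range (S.card - 1), ψ j :=
        sum_le_sum_of_subset_of_nonneg (range_subset_range.2 (by omega)) fun j _ _ => ψ0 j
      rw [sum_range_succ] at h6
      have h7 : ((m : ℝ) + 1) = (S'.card : ℝ) := by rw [hm']; push_cast; ring
      rw [h7] at h5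
      have h8 : S'.card - 1 = m := by omega
      simp only [B, h8]
      linarith
  refine (core hd0 (fun v U => h (unf G U) v + B (unf G U)) (fun v U hU => ?_)
    (fun v U w hw hU => ?_) (fun v U hU hf => ?_) v0).trans (ENNReal.ofReal_le_ofReal ?_)
  · exact add_nonneg ((hh _ (unf_nonempty hU)).2.2 v) (hB0 _)
  · have h1 := hB _ _ (unf_nonempty hU) (unf_anti s(v, w) U) w (unf_of_fresh hw)
    have h2 := (hh _ ⟨w, unf_of_fresh hw⟩).2.2 v
    linarith
  · have hl := (hh _ (unf_nonempty hU)).2.1 v fun z => hf (mem_unf.1 z)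
    rw [← hl]
    simp [lap]
  · simp only [unf_empty hd0, B, card_univ]
    rw [(hh univ ⟨v0, mem_univ v0⟩).1 v0 (mem_univ v0)]
    have h6 : ∑ j ∈ range (Fintype.card V - 1), ψ j ≤ ∑ j ∈ range (Fintype.card V), ψ j :=
      sum_le_sum_of_subset_of_nonneg (range_subset_range.2 (by omega)) fun j _ _ => ψ0 j
    have h7 : 0 ≤ √(Fintype.card V : ℝ) * a univ := mul_nonneg (Real.sqrt_nonneg _) (a0 _)
    linarith

end Pool.Agent.Lib.MP_7c147c_pr
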