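import Pool.Agent.Lib.MP_7c147c_pr.Lower

namespace Pool.Agent.Lib.MP_7c147c_pr.RelaxOld

open Pool.Agent.Lib.MP_7c147c_pr

theorem result (V : Type) [Fintype V] [DecidableEq V] (G : SimpleGraph V) [DecidableRel G.Adj]
    (hc : G.Connected) (ht : ∀ u v, ∃ φ : G ≃g G, φ u = v) (d : ℕ) (hd0 : 0 < d)
    (hd : G.IsRegularOfDegree d) (ρ τ : ℝ) (hρ0 : 0 < ρ) (hτ0 : 0 < τ)
    (hρ : ∀ (f : V → ℝ) x y, (f x - f y) ^ 2 ≤ ρ * energy G f)
    (hτ : ∀ f : V → ℝ, ∑ v, f v = 0 → d * ∑ v, f v ^ 2 ≤ τ * energy G f) (v : V) :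
    greedyCover G v ≤ ENNReal.ofReal (G.edgeFinset.card *
        (1 + (5 + 4 * Real.log (Fintype.card V)) * √(ρ * τ / d))) ∧
      greedyCover G v ≤ ENNReal.ofReal (1 + 13 * √(ρ * τ / d)) * simpleCover G v := by
  have hd' : (0 : ℝ) < d := by exact_mod_cast hd0
  have h1 := main hd0 hρ0 hτ0 (fun v => (hd.degree_eq v).ge) hρ (fun f hf => by
    simp only [hd.degree_eq, ← Finset.mul_sum] at hf ⊢
    exact hτ f ((mul_eq_zero.1 hf).resolve_left hd'.ne')) v
  refine ⟨h1, h1.trans (le_trans ?_ (mul_le_mul_right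
    (lower hc hρ (fun v => by rw [hd.degree_eq v]; exact hd0) ht v) _))⟩
  rw [← ENNReal.ofReal_mul (by positivity)]
  refine ENNReal.ofReal_le_ofReal ?_
  have hs : (Fintype.card V : ℝ) * d = 2 * G.edgeFinset.card := by
    rw [← deg_sum]; simp [hd.degree_eq]
  have hn : (1 : ℝ) ≤ Fintype.card V := by
    exact_mod_cast Fintype.card_pos_iff.2 ⟨v⟩
  have hd1 : (1 : ℝ) ≤ d := by exact_mod_cast hd0
  have hE : 0 < G.edgeFinset.card := by
    have : (0 : ℝ) < G.edgeFinset.card := by nlinarith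
    exact_mod_cast this
  have hE' : (0 : ℝ) < G.edgeFinset.card := by exact_mod_cast hE
  have a1 : (1 : ℝ) ≤ harmonic G.edgeFinset.card := by
    have := harm_step (m := G.edgeFinset.card) (m' := 0) (Nat.zero_le _)
    simpa [hE.ne'] using this
  have a2 := log_add_one_le_harmonic G.edgeFinset.card
  have a3 : Real.log (Fintype.card V) ≤ 2 * harmonic G.edgeFinset.card := by
    have b1 : Real.log (Fintype.card V) ≤ Real.log (2 * ((G.edgeFinset.card + 1 : ℕ) : ℝ)) := by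
      refine Real.log_le_log (by linarith) ?_
      push_cast
      nlinarith
    rw [Real.log_mul two_ne_zero (by positivity)] at b1
    have := Real.log_two_lt_d9
    linarith
  have a4 : 0 ≤ √(ρ * τ / d) := Real.sqrt_nonneg _
  have a5 : (5 + 4 * Real.log (Fintype.card V)) * √(ρ * τ / d) ≤
      13 * harmonic G.edgeFinset.card * √(ρ * τ / d) := by
    gcongr
    linarith
  nlinarith

end Pool.Agent.Lib.MP_7c147c_pr.RelaxOld
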