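import Pool.Agent.Lib.MP_7c147c_pr.Prof

/-! The greedy walk: the bound along a spanning tour, and the diameter bound for the simple walk. -/

set_option linter.unusedSectionVars false

namespace Pool.Agent.Lib.MP_7c147c_pr

open Finset

variable {V : Type} [Fintype V] [DecidableEq V] {G : SimpleGraph V} [DecidableRel G.Adj]

theorem exists_rho (hc : G.Connected) :
    ∃ ρ : ℝ, ∀ (f : V → ℝ) x y, (f x - f y) ^ 2 ≤ ρ * energy G f := by
  have h1 : ∀ (f : V → ℝ) {x y : V} (p : G.Walk x y), |f x - f y| ≤ p.length * √(energy G f) := by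
    intro f x y p
    induction p with
    | nil => simp
    | @cons a b c h p ih =>
      have h2 : |f a - f b| ≤ √(energy G f) := Real.abs_le_sqrt (edge_energy h f)
      have h3 := abs_sub_le (f a) (f b) (f c)
      simp only [SimpleGraph.Walk.length_cons]
      push_cast
      linarith
  refine ⟨(Fintype.card V : ℝ) ^ 2, fun f x y => ?_⟩
  obtain ⟨p, hp⟩ := (hc.preconnected x y).exists_isPath
  have h2 : (p.length : ℝ) ≤ Fintype.card V := by exact_mod_cast hp.length_lt.le
  have h3 := (h1 f p).trans (mul_le_mul_of_nonneg_right h2 (Real.sqrt_nonneg _))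
  rw [← sq_abs, ← Real.sq_sqrt (energy_nonneg G f), ← mul_pow]
  exact pow_le_pow_left₀ (abs_nonneg _) h3 2

theorem lap_sub (f g : V → ℝ) (x : V) : lap G (fun x => f x - g x) x = lap G f x - lap G g x := by
  simp only [lap, ← sum_sub_distrib]
  exact sum_congr rfl fun w _ => by ring

theorem hit_tri {ρ : ℝ} (hρ : ∀ (f : V → ℝ) x y, (f x - f y) ^ 2 ≤ ρ * energy G f) {b c : V}
    {Hb Hc : V → ℝ} (hb : IsHit G {b} Hb) (hc : IsHit G {c} Hc) (a : V) :
    Hc a ≤ Hb a + Hc b := by
  have b0 : Hb b = 0 := hb.1 b (mem_singleton_self b)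
  set u : V → ℝ := fun x => Hc x - Hb x with hu
  set w : V → ℝ := fun x => max (u x - u b) 0 with hw
  have h1 : ∑ x, w x * lap G u x ≤ 0 := by
    simp only [hu, lap_sub, mul_sub, sum_sub_distrib]
    rw [hit_pair hb, hit_pair hc]
    have e : w b = 0 := by simp [hw]
    have : 0 ≤ (G.edgeFinset.card : ℝ) * w c := mul_nonneg (Nat.cast_nonneg _) (le_max_right _ _)
    rw [e]
    linarith
  have h2 : energy G w ≤ ∑ x, w x * lap G u x := by
    have := green G w u
    unfold energy
    rw [div_le_iff₀ (by norm_num), mul_comm, ← this]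
    refine sum_le_sum fun x _ => sum_le_sum fun y _ => ?_
    simp only [hw]
    rcases le_total (u x - u b) 0 with p | p <;> rcases le_total (u y - u b) 0 with q | q <;>
      simp only [max_eq_left, max_eq_right, p, q] <;> nlinarith
  have h3 := hρ w a b
  rw [le_antisymm (h2.trans h1) (energy_nonneg G w), mul_zero] at h3
  have h4 : w a - w b = 0 := pow_eq_zero_iff two_ne_zero |>.1 (le_antisymm h3 (sq_nonneg _))
  have h5 : u a - u b ≤ w a := le_max_left _ _
  have h6 : w b = 0 := by simp [hw]
  simp only [hu] at h5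
  linarith

theorem hit_nbr {a : V} {H : V → ℝ} (h : IsHit G {a} H) :
    ∑ w ∈ G.neighborFinset a, H w = 2 * G.edgeFinset.card - G.degree a := by
  have h1 := hit_pair h fun x => if x = a then 1 else 0
  simp only [ite_mul, one_mul, zero_mul, mul_ite, mul_one, mul_zero, sum_ite_eq', mem_univ,
    if_true, lap, h.1 a (mem_singleton_self a), zero_sub, sum_neg_distrib] at h1
  linarith

theorem exists_tour (hc : G.Connected) (v : V) :
    ∃ p : G.Walk v v, (∀ x, x ∈ p.support) ∧ p.length + 2 ≤ 2 * Fintype.card V := by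
  have key : ∀ k, k + 1 ≤ Fintype.card V → ∃ p : G.Walk v v,
      k + 1 ≤ p.support.toFinset.card ∧ p.length ≤ 2 * k := by
    intro k
    induction k with
    | zero => exact fun _ => ⟨SimpleGraph.Walk.nil, by simp, by simp⟩
    | succ k ih =>
      intro hk
      obtain ⟨p, h1, h2⟩ := ih (by omega)
      by_cases h3 : k + 2 ≤ p.support.toFinset.card
      · exact ⟨p, h3, by omega⟩
      obtain ⟨y, -, hy⟩ := exists_mem_notMem_of_card_lt_card (s := p.support.toFinset) (t := univ)
        (by rw [card_univ]; omega)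
      obtain ⟨q⟩ := hc.preconnected v y
      obtain ⟨d, -, d1, d2⟩ := q.exists_boundary_dart {x | x ∈ p.support} p.start_mem_support
        (by simpa using hy)
      refine ⟨(p.takeUntil _ d1).append (.cons d.adj (.cons d.adj.symm (p.dropUntil _ d1))), ?_, ?_⟩
      · refine le_trans (b := (insert d.snd p.support.toFinset).card) ?_ (card_le_card ?_)
        · rw [card_insert_of_notMem (by simpa using d2)]; omega
        · intro x hx
          rw [List.mem_toFinset, SimpleGraph.Walk.mem_support_append_iff]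
          rcases mem_insert.1 hx with e | e
          · right; simp [e]
          · rw [List.mem_toFinset, ← p.take_spec d1, SimpleGraph.Walk.mem_support_append_iff] at e
            exact e.imp id fun e => by simp [e]
      · have := congrArg SimpleGraph.Walk.length (p.take_spec d1)
        simp only [SimpleGraph.Walk.length_append, SimpleGraph.Walk.length_cons] at this ⊢
        omega
  have n1 : 0 < Fintype.card V := Fintype.card_pos_iff.2 ⟨v⟩
  obtain ⟨p, h1, h2⟩ := key (Fintype.card V - 1) (by omega)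
  refine ⟨p, fun x => ?_, by omega⟩
  have : p.support.toFinset = univ := eq_univ_of_card _ (le_antisymm (card_le_univ _) (by omega))
  rw [← List.mem_toFinset, this]
  exact mem_univ x

theorem tour_main (hc : G.Connected) (hd0 : ∀ v, 0 < G.degree v) (v0 : V) :
    greedyCover G v0 ≤ ENNReal.ofReal (G.edgeFinset.card +
      6 * G.edgeFinset.card * (Fintype.card V - 1)) := by
  classical
  obtain ⟨ρ, hρ⟩ := exists_rho hc
  choose H hH using fun a : V => exists_hit G hρ hd0 {a} (singleton_nonempty a)
  obtain ⟨p, p1, p2⟩ := exists_tour hc v0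
  set E : ℝ := (G.edgeFinset.card : ℝ) with hE
  have E0 : 0 ≤ E := Nat.cast_nonneg _
  have H0 : ∀ a x, 0 ≤ H a x := fun a => (hH a).2.2
  have tri : ∀ a b c, H c a ≤ H b a + H c b := fun a b c => hit_tri hρ (hH b) (hH c) a
  have hM : ∀ a w, G.Adj a w → H a w ≤ 2 * E := fun a w h => by
    have h1 := hit_nbr (hH a)
    have h2 := single_le_sum (f := H a) (s := G.neighborFinset a) (fun x _ => H0 a x)
      (show w ∈ G.neighborFinset a by simpa using h)
    have : (0 : ℝ) ≤ G.degree a := Nat.cast_nonneg _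
    linarith
  have ch : ∀ x i j, i ≤ j → j ≤ p.length →
      H (p.getVert j) x ≤ H (p.getVert i) x + 2 * E * (j - i) := by
    intro x i j hij
    induction j, hij using Nat.le_induction with
    | base => simp
    | succ j _ ih =>
      intro hj
      have h1 := ih (by omega)
      have h2 := tri x (p.getVert j) (p.getVert (j + 1))
      have h3 := hM _ _ (p.adj_getVert_succ (i := j) hj).symm
      push_cast
      linarith
  let ι : Finset (Sym2 V) → ℕ := fun U => sInf {i | p.getVert i ∈ unf G U}
  have hι : ∀ U, (unf G U).Nonempty → p.getVert (ι U) ∈ unf G U ∧ ι U ≤ p.length := by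
    rintro U ⟨x, hx⟩
    obtain ⟨i, h1, h2⟩ := SimpleGraph.Walk.mem_support_iff_exists_getVert.1 (p1 x)
    have h3 : i ∈ {i | p.getVert i ∈ unf G U} := by simpa [h1] using hx
    exact ⟨Nat.sInf_mem (s := {i | p.getVert i ∈ unf G U}) ⟨i, h3⟩, (Nat.sInf_le h3).trans h2⟩
  let C : Finset (Sym2 V) → ℝ := fun U => ∑ a, ∑ w ∈ fresh G a U, H a w
  refine (core hd0 (fun v U => H (p.getVert (ι U)) v + (2 * E * (p.length - ι U) + C U))
    (fun v U hU => ?_) (fun v U w hw hU => ?_) (fun v U hU hf => ?_) v0).trans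
    (ENNReal.ofReal_le_ofReal ?_)
  · have h1 : (ι U : ℝ) ≤ p.length := by exact_mod_cast (hι U (unf_nonempty hU)).2
    exact add_nonneg (H0 _ _) (add_nonneg (mul_nonneg (by positivity) (by linarith))
      (sum_nonneg fun a _ => sum_nonneg fun w _ => H0 a w))
  · obtain ⟨h1, h2⟩ := hι _ (unf_nonempty hU)
    have h3 : ι U ≤ ι (insert s(v, w) U) := Nat.sInf_le (unf_anti _ U h1)
    have h4 := ch w _ _ h3 h2
    have h5 := tri w v (p.getVert (ι U))
    have sub : ∀ a, fresh G a (insert s(v, w) U) ⊆ fresh G a U := fun a x hx =>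
      mem_filter.2 ⟨(mem_filter.1 hx).1, fun z => (mem_filter.1 hx).2 (mem_insert_of_mem z)⟩
    have h6 : H v w ≤ ∑ x ∈ fresh G v U, H v x - ∑ x ∈ fresh G v (insert s(v, w) U), H v x := by
      rw [← sum_sdiff (sub v), add_sub_cancel_right]
      exact single_le_sum (f := H v) (fun x _ => H0 v x)
        (mem_sdiff.2 ⟨hw, fun z => (mem_filter.1 z).2 (mem_insert_self _ _)⟩)
    have h7 := single_le_sum (s := univ) (f := fun a => ∑ x ∈ fresh G a U, H a x -
      ∑ x ∈ fresh G a (insert s(v, w) U), H a x) (fun a _ => sub_nonneg.2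
        (sum_le_sum_of_subset_of_nonneg (sub a) fun x _ _ => H0 a x)) (mem_univ v)
    rw [sum_sub_distrib] at h7
    simp only [C]
    linarith
  · have hl := (hH (p.getVert (ι U))).2.1 v fun z =>
      hf (mem_unf.1 (mem_singleton.1 z ▸ (hι U (unf_nonempty hU)).1))
    rw [← hl]
    simp [lap]
  · have h1 := ch v0 0 _ (Nat.zero_le _) (hι ∅ (by rw [unf_empty hd0]; exact ⟨v0, mem_univ _⟩)).2
    rw [p.getVert_zero, (hH v0).1 v0 (mem_singleton_self _)] at h1
    have h2 : C ∅ = 2 * E * (Fintype.card V - 1) := by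
      have : ∀ a, fresh G a ∅ = G.neighborFinset a := fun a => by simp [fresh]
      simp only [C, this, hit_nbr (hH _), sum_sub_distrib, deg_sum, sum_const, card_univ,
        nsmul_eq_mul, ← hE]
      ring
    have h3 : (p.length : ℝ) + 2 ≤ 2 * Fintype.card V := by exact_mod_cast p2
    simp only [h2]
    nlinarith [mul_le_mul_of_nonneg_left h3 E0]

theorem simple_ge (hd : ∀ v, 0 < G.degree v) {c : Finset (Sym2 V) → V → ℝ} (c0 : ∀ v, c ∅ v = 0)
    (h : ∀ B v, G.degree v * c B v ≤
      G.degree v + ∑ w ∈ G.neighborFinset v, c (B.erase s(v, w)) w) (v : V) :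
    ENNReal.ofReal (c G.edgeFinset v) ≤ simpleCover G v := by
  obtain ⟨K, hK⟩ := (Set.finite_range fun p : Finset (Sym2 V) × V => c p.1 p.2).bddAbove
  have hK' : ∀ B v, c B v ≤ K := fun B v => hK ⟨(B, v), rfl⟩
  have sub : ∀ T : ℕ, ∀ v U, c (G.edgeFinset \ U) v ≤
      ∑ t ∈ range T, surv G (fun u _ => G.neighborFinset u) t v U +
        K * surv G (fun u _ => G.neighborFinset u) T v U := by
    intro T
    induction T with
    | zero =>
      intro v U
      by_cases hU : G.edgeFinset ⊆ U
      · simp [surv, hU, sdiff_eq_empty_iff_subset.2 hU, c0]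
      · simpa [surv, hU] using hK' _ v
    | succ T ih =>
      intro v U
      by_cases hU : G.edgeFinset ⊆ U
      · have z : ∀ t, surv G (fun u _ => G.neighborFinset u) t v U = 0 := fun t => by
          cases t <;> simp [surv, hU]
        simp [z, sdiff_eq_empty_iff_subset.2 hU, c0]
      · have hp : (0 : ℝ) < G.degree v := by exact_mod_cast hd v
        have e := h (G.edgeFinset \ U) v
        rw [sum_range_succ']
        simp only [surv, if_neg hU, SimpleGraph.card_neighborFinset_eq_degree]
        rw [← sum_div, sum_comm]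
        have h1 := sum_le_sum fun w (_ : w ∈ G.neighborFinset v) => ih w (insert s(v, w) U)
        simp only [sdiff_insert, sum_add_distrib, ← mul_sum] at h1
        refine le_of_mul_le_mul_left (e.trans ?_) hp
        field_simp
        linarith
  by_cases hs : Summable fun t => surv G (fun u _ => G.neighborFinset u) t v ∅
  · rw [simpleCover, ← ENNReal.ofReal_tsum_of_nonneg (fun t => surv_nonneg _ t v ∅) hs]
    refine ENNReal.ofReal_le_ofReal ?_
    have l1 := hs.hasSum.tendsto_sum_nat.add (hs.tendsto_atTop_zero.const_mul K)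
    rw [mul_zero, add_zero] at l1
    exact ge_of_tendsto' l1 fun T => by simpa using sub T v ∅
  · have : simpleCover G v = ⊤ := by
      by_contra hne
      refine hs ?_
      have := ENNReal.summable_toReal hne
      simpa only [ENNReal.toReal_ofReal (surv_nonneg _ _ v ∅)] using this
    rw [this]
    exact le_top

theorem hit_le_simple (hd : ∀ v, 0 < G.degree v) {z : V} {H : V → ℝ} (h : IsHit G {z} H) (v : V) :
    ENNReal.ofReal (H v) ≤ simpleCover G v := by
  classical
  have z0 : H z = 0 := h.1 z (mem_singleton_self z)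
  have := simple_ge hd (c := fun B x => if ∃ y, s(z, y) ∈ B then H x else 0) (fun v => by simp)
    (fun B x => by
      have p0 : ∀ w, 0 ≤ if ∃ y, s(z, y) ∈ B.erase s(x, w) then H w else 0 := fun w => by
        split_ifs
        · exact h.2.2 w
        · exact le_rfl
      have p1 := sum_nonneg fun w (_ : w ∈ G.neighborFinset x) => p0 w
      have p2 : (0 : ℝ) ≤ G.degree x := Nat.cast_nonneg _
      by_cases hx : x = z
      · have : (if ∃ y, s(z, y) ∈ B then H x else 0) = 0 := by rw [hx, z0, ite_self]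
        rw [this]; linarith
      split_ifs with hB
      · obtain ⟨y, hy⟩ := hB
        have hl := h.2.1 x (by simpa using hx)
        rw [lap, sum_sub_distrib, sum_const, nsmul_eq_mul,
          SimpleGraph.card_neighborFinset_eq_degree] at hl
        have : ∑ w ∈ G.neighborFinset x, H w ≤ ∑ w ∈ G.neighborFinset x,
            if ∃ y, s(z, y) ∈ B.erase s(x, w) then H w else 0 := sum_le_sum fun w _ => by
          by_cases hw : w = z
          · rw [hw, z0, ite_self]
          · rw [if_pos ⟨y, mem_erase.2 ⟨by simp [Ne.symm hx, Ne.symm hw], hy⟩⟩]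
        linarith
      · linarith) v
  obtain ⟨w, hw⟩ := (G.degree_pos_iff_exists_adj z).1 (hd z)
  rwa [if_pos ⟨w, by simpa using hw⟩] at this

theorem sq_le_hit (hd : ∀ v, 0 < G.degree v) (ht : ∀ u v, ∃ φ : G ≃g G, φ u = v) {a b : V}
    {Ha Hb : V → ℝ} (ha : IsHit G {a} Ha) (hb : IsHit G {b} Hb) {f : V → ℝ}
    (hf : ∀ x y, G.Adj x y → (f x - f y) ^ 2 ≤ 1) : (f b - f a) ^ 2 ≤ Hb a := by
  set E : ℝ := (G.edgeFinset.card : ℝ) with hE
  have hE0 : 0 < E := by
    obtain ⟨w, hw⟩ := (G.degree_pos_iff_exists_adj a).1 (hd a)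
    rw [hE]; exact_mod_cast card_pos.2 ⟨s(a, w), by simpa using hw⟩
  have a0 : Ha a = 0 := ha.1 a (mem_singleton_self a)
  have b0 : Hb b = 0 := hb.1 b (mem_singleton_self b)
  have s1 := lap_symm (G := G) Ha Hb
  rw [hit_pair ha, hit_pair hb, hit_trans ht ha hb, ← hE] at s1
  have hH : Ha b = Hb a := by nlinarith
  have s2 : ∀ g : V → ℝ, ∑ x, g x * lap G (fun x => Ha x - Hb x) x = 2 * E * (g b - g a) := by
    intro g
    simp only [lap_sub, mul_sub, sum_sub_distrib]
    rw [hit_pair ha, hit_pair hb, ← hE]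
    ring
  set t := -2 * (f b - f a) with ht'
  have s3 := energy_add G (fun x => t * f x) fun x => Ha x - Hb x
  rw [s2, energy_eq G fun x => Ha x - Hb x, s2, a0, b0, hH] at s3
  have s4 := energy_nonneg G fun v => t * f v + (Ha v - Hb v)
  have s5 : energy G (fun x => t * f x) ≤ t ^ 2 * E := by
    have : ∑ v, ∑ w ∈ G.neighborFinset v, (t * f v - t * f w) ^ 2 ≤ ∑ v, t ^ 2 * G.degree v :=
      sum_le_sum fun v _ => by
        rw [mul_comm (t ^ 2), ← SimpleGraph.card_neighborFinset_eq_degree, ← nsmul_eq_mul]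
        refine sum_le_card_nsmul _ _ _ fun w hw => ?_
        have := mul_le_mul_of_nonneg_left (hf v w (by simpa using hw)) (sq_nonneg t)
        nlinarith
    rw [← mul_sum, deg_sum, ← hE] at this
    unfold energy
    linarith
  refine le_of_mul_le_mul_left ?_ hE0
  rw [ht'] at s3 s5
  nlinarith

theorem diam_le_simple (hc : G.Connected) (hd : ∀ v, 0 < G.degree v)
    (ht : ∀ u v, ∃ φ : G ≃g G, φ u = v) (v : V) :
    ENNReal.ofReal ((G.diam : ℝ) ^ 2) ≤ simpleCover G v := by
  obtain ⟨ρ, hρ⟩ := exists_rho hc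
  have : Nonempty V := ⟨v⟩
  obtain ⟨x, y, hxy⟩ := G.exists_dist_eq_diam
  obtain ⟨φ, rfl⟩ := ht x v
  obtain ⟨Ha, ha⟩ := exists_hit G hρ hd {φ x} (singleton_nonempty _)
  obtain ⟨Hb, hb⟩ := exists_hit G hρ hd {φ y} (singleton_nonempty _)
  refine le_trans (ENNReal.ofReal_le_ofReal ?_) (hit_le_simple hd hb _)
  have := sq_le_hit hd ht ha hb (f := fun u => G.dist x (φ.symm u)) fun a b hab => by
    have h1 : G.Adj (φ.symm a) (φ.symm b) := φ.symm.map_adj_iff.2 hab
    have h2 := h1.diff_dist_adj (u := x)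
    have h3 : G.dist x (φ.symm b) ≤ G.dist x (φ.symm a) + 1 ∧
        G.dist x (φ.symm a) ≤ G.dist x (φ.symm b) + 1 := by omega
    have h4 : (G.dist x (φ.symm b) : ℝ) ≤ G.dist x (φ.symm a) + 1 := by exact_mod_cast h3.1
    have h5 : (G.dist x (φ.symm a) : ℝ) ≤ G.dist x (φ.symm b) + 1 := by exact_mod_cast h3.2
    nlinarith
  simpa [hxy] using this

end Pool.Agent.Lib.MP_7c147c_pr
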